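import Pool.Agent.NH21.Unav.Main

namespace NH21.Unav

theorem v2_mul_odd {k n : ℕ} (hk : Odd k) (hn : 0 < n) : padicValNat 2 (k * n) = padicValNat 2 n := by
  have hk0 : k ≠ 0 := by rintro rfl; exact absurd hk (by decide)
  have : Fact (Nat.Prime 2) := ⟨Nat.prime_two⟩
  rw [padicValNat.mul hk0 hn.ne']
  have : padicValNat 2 k = 0 := v2_odd (by exact_mod_cast hk)
  omega

theorem v2_two_mul {n : ℕ} (hn : 0 < n) : padicValNat 2 (2 * n) = padicValNat 2 n + 1 := by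
  have : Fact (Nat.Prime 2) := ⟨Nat.prime_two⟩
  rw [padicValNat.mul (by norm_num) hn.ne']
  have : padicValNat 2 2 = 1 := padicValNat_self
  omega

theorem even_quot {r d : ℕ} (hd : 0 < d) (h : r ∣ d) (hv : padicValNat 2 r < padicValNat 2 d) :
    ∃ j, d = 2 * j * r := by
  obtain ⟨k, hk⟩ := h
  have hr0 : r ≠ 0 := by rintro rfl; rw [zero_mul] at hk; omega
  have hk0 : k ≠ 0 := by rintro rfl; rw [mul_zero] at hk; omega
  rcases Nat.even_or_odd k with ⟨j, hj⟩ | ho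
  · exact ⟨j, by rw [hk, hj]; ring⟩
  · have := v2_mul_odd ho (Nat.pos_of_ne_zero hr0)
    rw [hk, mul_comm, this] at hv
    omega

/-- A linear shadow of `L3`, with the valuation conditions. -/
theorem L3_cases {d p r : ℕ} (h : L3 d p r) :
    (r = p + d ∧ padicValNat 2 p < padicValNat 2 d) ∨
    (p = r + d ∧ padicValNat 2 r < padicValNat 2 d) ∨
    (d = 2 * p + r ∧ padicValNat 2 p < padicValNat 2 d) ∨
    (d = p + 2 * r ∧ padicValNat 2 r < padicValNat 2 d) ∨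
    (∃ e, e ∣ d ∧ 0 < e ∧ 2 * e ≤ d ∧ (p = d - e ∧ r = d + e ∨ p = d + e ∧ r = d - e)) ∨
    (∃ e, 0 < e ∧ d = 7 * e ∧ ((p = 2 * e ∧ r = 4 * e) ∨ (p = 4 * e ∧ r = 2 * e))) := by
  rcases h with h | h | h | h | ⟨e, h1, h2, h3, h4⟩ | h
  · exact Or.inl h
  · exact Or.inr (Or.inl h)
  · exact Or.inr (Or.inr (Or.inl h))
  · exact Or.inr (Or.inr (Or.inr (Or.inl h)))
  · refine Or.inr (Or.inr (Or.inr (Or.inr (Or.inl ?_))))
    refine ⟨e, h3, h1, ?_, h4⟩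
    obtain ⟨k, hk⟩ := h3
    have hk2 : 2 ≤ k := by
      by_contra hc
      have : k = 0 ∨ k = 1 := by omega
      rcases this with rfl | rfl <;> omega
    rw [hk]; nlinarith
  · exact Or.inr (Or.inr (Or.inr (Or.inr (Or.inr h))))

/-- The case of span less than `d` cannot occur for three gaps. -/
theorem r13_small {d p r s : ℕ} (hp : 0 < p) (hr : 0 < r) (hs : 0 < s) (hT : p + r + s < d)
    (h1 : L3 d p r) (h2 : L3 d r s) (h3 : L3 d (p + r) s) (h4 : L3 d p (r + s)) : False := by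
  rcases L3_cases h3 with ⟨a3, b3⟩ | ⟨a3, b3⟩ | ⟨a3, b3⟩ | ⟨a3, b3⟩ | ⟨e, -, a3, b3⟩ | ⟨e, he, a3, b3⟩ <;>
  rcases L3_cases h4 with ⟨a4, b4⟩ | ⟨a4, b4⟩ | ⟨a4, b4⟩ | ⟨a4, b4⟩ | ⟨f, -, a4, b4⟩ | ⟨f, hf, a4, b4⟩ <;>
  first
  | (exfalso; omega)
  | (rcases L3_cases h1 with ⟨a1, b1⟩ | ⟨a1, b1⟩ | ⟨a1, b1⟩ | ⟨a1, b1⟩ | ⟨g, -, a1, b1⟩ |
       ⟨g, hg, a1, b1⟩ <;>
     first
     | (exfalso; omega)
     | skip)
  · have e1 : d = 5 * p := by omega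
    have e2 : r = 2 * p := by omega
    rw [e1, e2, v2_two_mul hp, v2_mul_odd (by decide) hp] at b1
    omega
  · have e0 : r = 3 * f := by omega
    have v3 := v2_mul_odd (k := 3) (by decide) hf
    have v7 := v2_mul_odd (k := 7) (by decide) hf
    rw [← e0] at v3
    rw [← a4] at v7
    rcases L3_cases h2 with ⟨a1, b1⟩ | ⟨a1, b1⟩ | ⟨a1, b1⟩ | ⟨a1, b1⟩ | ⟨g, -, a1, b1⟩ |
       ⟨g, hg, a1, b1⟩ <;> omega
  · have e0 : r = 3 * e := by omega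
    have v3 := v2_mul_odd (k := 3) (by decide) he
    have v7 := v2_mul_odd (k := 7) (by decide) he
    rw [← e0] at v3
    rw [← a3] at v7
    omega

/-- The case of span larger than `d`. -/
theorem r13_large {d p r s : ℕ} (hd : 0 < d) (hp : 0 < p) (hr : 0 < r) (hs : 0 < s)
    (hT : d ≤ p + r + s)
    (h1 : L3 d p r) (h2 : L3 d r s) (h3 : L3 d (p + r) s) (h4 : L3 d p (r + s)) : L4 d p r s := by
  rcases L3_cases h3 with ⟨a3, b3⟩ | ⟨a3, b3⟩ | ⟨a3, b3⟩ | ⟨a3, b3⟩ | ⟨e, c3, a3, b3⟩ | ⟨e, he, a3, b3⟩ <;>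
  rcases L3_cases h4 with ⟨a4, b4⟩ | ⟨a4, b4⟩ | ⟨a4, b4⟩ | ⟨a4, b4⟩ | ⟨f, c4, a4, b4⟩ | ⟨f, hf, a4, b4⟩ <;>
  first
  | (exfalso; omega)
  | (rcases L3_cases h1 with ⟨a1, b1⟩ | ⟨a1, b1⟩ | ⟨a1, b1⟩ | ⟨a1, b1⟩ | ⟨g, c1, a1, b1⟩ |
       ⟨g, hg, a1, b1⟩ <;>
     first
     | (exfalso; omega)
     | (rcases L3_cases h2 with ⟨a2, b2⟩ | ⟨a2, b2⟩ | ⟨a2, b2⟩ | ⟨a2, b2⟩ | ⟨g, c2, a2, b2⟩ |
         ⟨g, hg, a2, b2⟩ <;>
       first
       | (exfalso; omega)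
       | (refine ⟨r, 2, hr, le_rfl, ?_, rfl, ?_⟩ <;> omega)
       | skip))
  · have e1 : r = d := by omega
    rw [e1] at b1
    omega
  · have e1 : f = r := by omega
    rw [e1] at c4
    obtain ⟨j, hj⟩ := even_quot hd c4 b1
    have hj2 : 2 ≤ j := by
      by_contra hc
      have : 2 * j * r ≤ 2 * r := by
        have : j ≤ 1 := by omega
        nlinarith
      omega
    exact ⟨r, j, hr, hj2, hj, rfl, by omega⟩
  · have e1 : e = r := by omega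
    rw [e1] at c3
    obtain ⟨j, hj⟩ := even_quot hd c3 b1
    have hj2 : 2 ≤ j := by
      by_contra hc
      have : 2 * j * r ≤ 2 * r := by
        have : j ≤ 1 := by omega
        nlinarith
      omega
    exact ⟨r, j, hr, hj2, hj, rfl, by omega⟩

theorem r13 {d p r s : ℕ} (hd : 0 < d) (hp : 0 < p) (hr : 0 < r) (hs : 0 < s)
    (h1 : L3 d p r) (h2 : L3 d r s) (h3 : L3 d (p + r) s) (h4 : L3 d p (r + s)) : L4 d p r s := by
  rcases lt_or_ge (p + r + s) d with h | h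
  · exact (r13_small hp hr hs h h1 h2 h3 h4).elim
  · exact r13_large hd hp hr hs h h1 h2 h3 h4

theorem L4_span {d p r s : ℕ} (h : L4 d p r s) : p + r + s = 2 * d := by
  obtain ⟨e, j, h1, h2, h3, h4, h5⟩ := h
  have h6 : 4 * e ≤ d := by rw [h3]; nlinarith
  omega

/-- Two patterns with at least two gaps each: one direction of the sizes. -/
theorem r22_aux {a b p r : ℕ} (ha : 0 < a) (hb : 0 < b) (hp : 0 < p) (hr : 0 < r)
    (hDq : p + r < a + b) (h1 : L3 (a + b) p r) (h2 : L3 (p + r) a b) (h3 : L3 a p r)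
    (h4 : L3 b p r) : False := by
  rcases L3_cases h1 with ⟨a1, b1⟩ | ⟨a1, b1⟩ | ⟨a1, b1⟩ | ⟨a1, b1⟩ | ⟨e, c1, a1, b1⟩ |
       ⟨e, c1, a1, b1⟩ <;>
  rcases L3_cases h2 with ⟨a2, b2⟩ | ⟨a2, b2⟩ | ⟨a2, b2⟩ | ⟨a2, b2⟩ | ⟨f, c2, a2, b2⟩ |
       ⟨f, c2, a2, b2⟩ <;>
  first
  | (exfalso; omega)
  | (rcases L3_cases h3 with ⟨a3, b3⟩ | ⟨a3, b3⟩ | ⟨a3, b3⟩ | ⟨a3, b3⟩ | ⟨g, c3, a3, b3⟩ |
       ⟨g, c3, a3, b3⟩ <;>
     first
     | (exfalso; omega)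
     | (rcases L3_cases h4 with ⟨a4, b4⟩ | ⟨a4, b4⟩ | ⟨a4, b4⟩ | ⟨a4, b4⟩ | ⟨k, c4, a4, b4⟩ |
         ⟨k, c4, a4, b4⟩ <;>
        first
        | (exfalso; omega)
        | skip))
  · have e1 : r = a := by omega
    rw [e1] at b3
    omega
  · have e1 : r = b := by omega
    rw [e1] at b4
    omega
  · have e1 : p = a := by omega
    rw [e1] at b3
    omega
  · have e1 : p = b := by omega
    rw [e1] at b4
    omega

end NH21.Unav
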