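import Pool.Agent.NH21.Unav.Defs

/-!
# Case E (UA-1, helper80)
-/

namespace NH21.Unav

namespace CE

/-- sufficient condition -/
theorem okE {d a b u x y : ℤ} (hd : 0 < d) (hu : Odd u) (h1 : 2*d ∣ a*u - x) (h2 : 2*d ∣ b*u - y)
    (x0 : 0 ≤ x) (xh : x ≤ d) (y0 : 0 ≤ y) (yh : y ≤ d) (hxy : d ≤ x + y) :
    Rot d a b (-(a+b)) := by
  obtain ⟨k, hk⟩ := hu
  obtain ⟨p, hp⟩ := h1
  obtain ⟨s, hs⟩ := h2
  refine ⟨2*d, u, x, y, 2*d - x - y, d, by omega, ⟨p, ?_⟩, ⟨s, ?_⟩,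
    ⟨-p - s - 1, ?_⟩, ⟨k, ?_⟩, by omega, by omega, by omega, by ring, by omega,
    by omega, by omega, by omega, by omega, by omega⟩
  · linear_combination hp
  · linear_combination hs
  · linear_combination (-1)*hp - hs
  · linear_combination d*hk

/-- a residue in an interval -/
theorem exists_res (n L c : ℤ) (hn : 0 < n) : ∃ y, L ≤ y ∧ y ≤ L + n - 1 ∧ n ∣ y - c := by
  refine ⟨L + (c - L) % n, ?_, ?_, ?_⟩
  · have := Int.emod_nonneg (c - L) hn.ne'
    omega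
  · have := Int.emod_lt_of_pos (c - L) hn
    omega
  · have h1 := Int.emod_add_mul_ediv (c - L) n
    refine ⟨-((c - L) / n), ?_⟩
    linear_combination h1

/-- the non-coprime case -/
theorem nc {d a b h g a' : ℤ} (hdg : d = g*h) (hag : a = g*a') (hg : 3 ≤ g) (hh : 2 ≤ h)
    (hev : Even h) (ha : Odd a') (hc : IsCoprime a' (2*h)) (hb : IsCoprime b g) :
    Rot d a b (-(a+b)) := by
  obtain ⟨u, w, huw⟩ := hc
  obtain ⟨b1, w1, hb1⟩ := hb
  obtain ⟨y, hy1, hy2, t, ht⟩ := exists_res (2*h) g (u*(h-1)*b) (by omega)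
  have key : g + 2*h - 1 ≤ g*h := by
    have : (g - 2)*(h - 1) ≥ 1 := by nlinarith
    nlinarith
  have hodd : Odd (u*(h-1)) := by
    have h1 : Odd (h - 1) := hev.sub_odd odd_one
    have h2 : Odd (a'*(u*(h-1))) := by
      have e : a'*(u*(h-1)) = (h-1) - 2*(h*(h-1)*w) := by linear_combination (h-1)*huw
      rw [e]
      exact h1.sub_even (even_two_mul _)
    exact (Int.odd_mul.1 h2).2
  have hodd2 : Odd (u*(h-1) + 2*h*(t*b1)) := by
    have e : u*(h-1) + 2*h*(t*b1) = u*(h-1) + 2*(h*(t*b1)) := by ring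
    rw [e]
    exact hodd.add_even (even_two_mul _)
  have hgh : 0 < g*h := by positivity
  refine okE (u := u*(h-1) + 2*h*(t*b1)) (x := g*(h-1)) (y := y) (by omega) hodd2
    ⟨-((h-1)*w) + t*b1*a', ?_⟩ ⟨-(t*w1), ?_⟩ (by nlinarith) (by nlinarith) (by omega) (by omega)
    (by nlinarith)
  · rw [hag, hdg]
    linear_combination g*(h-1)*huw
  · rw [hdg]
    linear_combination 2*h*t*hb1 - ht

theorem core {d c : ℤ} (hd : Even d) (hc : Odd c) (h3 : 3 ≤ c) (hcd : c ≤ d - 3) :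
    ∃ u j : ℤ, Odd u ∧ 0 < u ∧ u ≤ d ∧ (2*j+1)*d ≤ u*c ∧ u*c ≤ (2*j+1)*d + u := by
  obtain ⟨d2, hd2⟩ := hd
  obtain ⟨k, hk⟩ := hc
  rcases lt_trichotomy (2*c) d with hlt | heq | hgt
  · -- 2c < d
    have hc0 : 0 < 2*c := by omega
    have hdc : 2*c + 2 ≤ d := by omega
    by_cases h8 : c = 3 ∧ d = 8
    · obtain ⟨rfl, rfl⟩ := h8
      exact ⟨3, 0, ⟨1, by norm_num⟩, by norm_num, by norm_num, by norm_num, by norm_num⟩
    obtain ⟨w, hw⟩ : ∃ w, w = ((c-2)*d + c - 1) / (2*c) := ⟨_, rfl⟩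
    have e1 : w*(2*c) ≤ (c-2)*d + c - 1 := by rw [hw]; exact Int.ediv_mul_le _ hc0.ne'
    have e2 : (c-2)*d + c - 1 < (w+1)*(2*c) := by rw [hw]; exact Int.lt_ediv_add_one_mul_self _ hc0
    have e1' : w*c ≤ (c-2)*d2 + k := by nlinarith
    have e2' : (c-2)*d2 + k < (w+1)*c := by nlinarith
    -- u = 2 w + 1
    have f1 : (c-2)*d ≤ (2*w+1)*c := by nlinarith
    have f2 : (2*w+1)*c ≤ (c-2)*d + 2*c - 1 := by nlinarith
    have f3 : (2*w+1)*c ≤ (c-2)*d + (2*w+1) := by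
      by_cases hc5 : 5 ≤ c
      · have f4 : 2*c - 1 ≤ 2*w + 1 := by
          by_contra hcon
          have f5 : w ≤ c - 2 := by omega
          nlinarith
        linarith
      · have hc3 : c = 3 := by omega
        subst hc3
        omega
    refine ⟨2*w+1, k - 1, ⟨w, rfl⟩, ?_, ?_, ?_, ?_⟩
    · by_contra hcon
      have f5 : w ≤ -1 := by omega
      nlinarith
    · by_contra hcon
      have f5 : d + 1 ≤ 2*w+1 := by omega
      nlinarith
    · have e : 2*(k-1)+1 = c - 2 := by omega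
      rw [e]
      exact f1
    · have e : 2*(k-1)+1 = c - 2 := by omega
      rw [e]
      exact f3
  · -- d = 2 c
    rcases Int.even_or_odd k with ⟨l, hl⟩ | ⟨l, hl⟩
    · -- c = 4 l + 1, u = c + 2 = 4 l + 3
      refine ⟨4*l+3, l, ⟨2*l+1, by ring⟩, by omega, by omega, ?_, ?_⟩
      · rw [← heq]; nlinarith
      · rw [← heq]; nlinarith
    · -- c = 4 l + 3
      refine ⟨4*l+3, l, ⟨2*l+1, by ring⟩, by omega, by omega, ?_, ?_⟩
      · rw [← heq]; nlinarith
      · rw [← heq]; nlinarith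
  · -- d < 2 c
    obtain ⟨e, he⟩ : ∃ e, e = d - c := ⟨_, rfl⟩
    have hc0 : 0 < 2*e := by omega
    have hde : 2*e + 2 ≤ d := by omega
    obtain ⟨w, hw⟩ : ∃ w, w = ((e-1)*d - e) / (2*e) := ⟨_, rfl⟩
    have e1 : w*(2*e) ≤ (e-1)*d - e := by rw [hw]; exact Int.ediv_mul_le _ hc0.ne'
    have e2 : (e-1)*d - e < (w+1)*(2*e) := by rw [hw]; exact Int.lt_ediv_add_one_mul_self _ hc0
    have f4 : 2*e - 1 ≤ 2*w + 1 := by
      by_contra hcon
      have f5 : w ≤ e - 2 := by omega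
      nlinarith
    have f6 : 2*w + 1 < d := by
      by_contra hcon
      nlinarith
    -- the number j : 2 j + 1 = u - e + 1
    refine ⟨2*w+1, w - e + (k + 1) - (d2 - e) , ⟨w, rfl⟩, by omega, by omega, ?_, ?_⟩
    · have g1 : 2*(w - e + (k + 1) - (d2 - e)) + 1 = (2*w+1) - e + 1 := by omega
      have g2 : c = d - e := by omega
      rw [g1, g2]
      nlinarith
    · have g1 : 2*(w - e + (k + 1) - (d2 - e)) + 1 = (2*w+1) - e + 1 := by omega
      have g2 : c = d - e := by omega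
      rw [g1, g2]
      nlinarith

end CE

open CE

theorem caseE : CaseE := by
  rintro d a b hd2 hde hao hbo hg
  have hd0 : d ≠ 0 := by omega
  have hgp : 0 < (Int.gcd a d : ℤ) := by
    have := Int.gcd_pos_of_ne_zero_right a hd0
    exact_mod_cast this
  obtain ⟨g, hgd⟩ : ∃ g : ℤ, g = Int.gcd a d := ⟨_, rfl⟩
  obtain ⟨a', ha'⟩ : g ∣ a := by rw [hgd]; exact Int.gcd_dvd_left _ _
  obtain ⟨n, hn⟩ : g ∣ d := by rw [hgd]; exact Int.gcd_dvd_right _ _
  obtain ⟨r, s, hrs⟩ : ∃ r s : ℤ, g = a*r + d*s := ⟨_, _, by rw [hgd]; exact Int.gcd_eq_gcd_ab a d⟩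
  rw [← hgd] at hgp
  have hcop : IsCoprime a' n := by
    refine ⟨r, s, ?_⟩
    have h1 : g * (a'*r + n*s) = g * 1 := by
      rw [mul_one]
      nth_rewrite 2 [hrs]
      rw [ha', hn]
      ring
    have h2 := mul_left_cancel₀ hgp.ne' h1
    linear_combination h2
  have hodd := hao
  rw [ha', Int.odd_mul] at hodd
  have hcop2 : IsCoprime a' (2*n) := by
    refine IsCoprime.mul_right ?_ hcop
    obtain ⟨k, hk⟩ := hodd.2
    exact ⟨1, -k, by rw [hk]; ring⟩
  by_cases hg1 : g = 1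
  · -- coprime case
    subst hg1
    rw [one_mul] at hn ha'
    subst hn ha'
    obtain ⟨r, s, hrs⟩ := hcop2
    -- a r = 1 mod 2d
    obtain ⟨β, hβ⟩ : ∃ β, β = (b*r) % (2*d) := ⟨_, rfl⟩
    have hβ0 : 0 ≤ β := by rw [hβ]; exact Int.emod_nonneg _ (by omega)
    have hβ1 : β < 2*d := by rw [hβ]; exact Int.emod_lt_of_pos _ (by omega)
    obtain ⟨p2, hp2⟩ : 2*d ∣ b*r - β := by
      rw [hβ]
      exact Int.dvd_self_sub_emod
    obtain ⟨p3, hp3⟩ : 2*d ∣ b - a*β := ⟨a*p2 + b*s, by linear_combination a*hp2 - b*hrs⟩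
    have hro : Odd r := by
      have h1 : Odd (a*r) := ⟨-(s*d), by linear_combination hrs⟩
      exact (Int.odd_mul.1 h1).2
    have hβo : Odd β := by
      obtain ⟨k, hk⟩ := hbo.mul hro
      exact ⟨k - d*p2, by linear_combination hk - hp2⟩
    have red : ∀ v x y : ℤ, Odd v → 2*d ∣ v - x → 2*d ∣ β*v - y → 0 ≤ x → x ≤ d → 0 ≤ y → y ≤ d →
        d ≤ x + y → Rot d a b (-(a+b)) := by
      rintro v x y hv ⟨p1, hp1⟩ ⟨p4, hp4⟩ x0 xh y0 yh hxy
      refine okE (u := v*r) (x := x) (y := y) (by omega) (hv.mul hro) ⟨-(s*v) + p1, ?_⟩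
        ⟨p2*v + p4, ?_⟩ x0 xh y0 yh hxy
      · linear_combination v*hrs + hp1
      · linear_combination v*hp2 + hp4
    obtain ⟨d2, hd2'⟩ := hde
    obtain ⟨k, hk⟩ := hβo
    rcases lt_or_ge β d with hlt | hge
    · left
      exact red (d-1) (d-1) (d-β) ⟨d2 - 1, by omega⟩ ⟨0, by ring⟩ ⟨k, by rw [hk]; ring⟩ (by omega)
        (by omega) (by omega) (by omega) (by omega)
    · obtain ⟨c, hc⟩ : ∃ c, c = 2*d - β := ⟨_, rfl⟩
      by_cases hc1 : c = 1
      · right; left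
        have h1 : β = 2*d - 1 := by omega
        rw [h1] at hp3
        exact ⟨p3 + a, by linear_combination hp3⟩
      by_cases hc2 : c = d - 1
      · right; right
        have h1 : β = d + 1 := by omega
        rw [h1] at hp3
        obtain ⟨l, hl⟩ := hao
        exact ⟨p3 + l, by linear_combination hp3 + d*hl⟩
      left
      obtain ⟨u, j, h1, h2, h3, h4, h5⟩ := core (d := d) (c := c) ⟨d2, hd2'⟩
        ⟨d - k - 1, by omega⟩ (by omega) (by omega)
      refine red u u ((2*j+2)*d - u*c) h1 ⟨0, by ring⟩ ⟨u - j - 1, ?_⟩ (by omega) h3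
        (by linarith) (by linarith) (by linarith)
      rw [hc]
      ring
  · -- not coprime
    left
    have hno : Even n := by
      rw [hn] at hde
      rcases Int.even_mul.1 hde with h | h
      · exact absurd h (Int.not_even_iff_odd.2 hodd.1)
      · exact h
    obtain ⟨g2, hg2⟩ := hodd.1
    obtain ⟨m, hm⟩ := hno
    have hnpos : 0 < n := by
      by_contra hcon
      have h1 : g*n ≤ 0 := mul_nonpos_of_nonneg_of_nonpos hgp.le (by omega)
      omega
    have hbg : IsCoprime b g := by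
      rw [Int.isCoprime_iff_gcd_eq_one]
      have h1 := hg (Int.gcd b g) (by
        have := Int.gcd_pos_of_ne_zero_right b hgp.ne'
        exact_mod_cast this) ((Int.gcd_dvd_right b g).trans ⟨n, hn⟩)
        ((Int.gcd_dvd_right b g).trans ⟨a', ha'⟩) (Int.gcd_dvd_left b g)
      exact_mod_cast h1
    exact nc hn ha' (by omega) (by omega) ⟨m, hm⟩ hodd.2 hcop2 hbg

end NH21.Unav
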