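import Pool.Agent.NH21.Unav.Defs

/-!
# Case O (UA-2, helper80)
-/

namespace NH21.Unav

namespace CO

/-- sufficient condition -/
theorem okO {d a b h v x y : ℤ} (hd : d = 2*h+1) (h1 : d ∣ a*v - x) (h2 : d ∣ b*v - y)
    (x0 : 0 ≤ x) (xh : x ≤ h) (y0 : 0 ≤ y) (yh : y ≤ h) (hxy : h + 1 ≤ x + y) :
    Rot d (2*a) (2*b) (-(2*(a+b))) := by
  obtain ⟨u, ⟨r, hr⟩, k, hk⟩ : ∃ u, d ∣ u - v ∧ Odd u := by
    rcases Int.even_or_odd v with hv | hv
    · refine ⟨v + d, ⟨1, by ring⟩, ?_⟩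
      exact hv.add_odd ⟨h, hd⟩
    · exact ⟨v, ⟨0, by ring⟩, hv⟩
  obtain ⟨p, hp⟩ := h1
  obtain ⟨s, hs⟩ := h2
  refine ⟨2*d, u, 2*x, 2*y, 2*d - 2*x - 2*y, d, by omega, ⟨p + a*r, ?_⟩, ⟨s + b*r, ?_⟩,
    ⟨-(p + a*r) - (s + b*r) - 1, ?_⟩, ⟨k, ?_⟩, by omega, by omega, by omega, by ring, by omega,
    by omega, by omega, by omega, by omega, by omega⟩
  · linear_combination 2*hp + 2*a*hr
  · linear_combination 2*hs + 2*b*hr
  · linear_combination (-2)*hp + (-2)*hs + (-2)*(a+b)*hr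
  · linear_combination d*hk

/-- a residue in an interval -/
theorem exists_res (n L c : ℤ) (hn : 0 < n) : ∃ y, L ≤ y ∧ y ≤ L + n - 1 ∧ n ∣ y - c := by
  refine ⟨L + (c - L) % n, ?_, ?_, ?_⟩
  · have := Int.emod_nonneg (c - L) hn.ne'
    omega
  · have := Int.emod_lt_of_pos (c - L) hn
    omega
  · have h1 := Int.emod_add_mul_ediv (c - L) n
    refine ⟨-((c - L) / n), ?_⟩
    linear_combination h1

/-- the non-coprime case -/
theorem nc {d a b h g n a' : ℤ} (hd : d = 2*h+1) (hdg : d = g*n) (hag : a = g*a') (hg : 3 ≤ g)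
    (hn : 3 ≤ n) (hc : IsCoprime a' n) (hb : IsCoprime b g) :
    Rot d (2*a) (2*b) (-(2*(a+b))) := by
  have hodd : Odd (g*n) := ⟨h, by rw [← hdg]; exact hd⟩
  rw [Int.odd_mul] at hodd
  obtain ⟨⟨g2, hg2⟩, m, hm⟩ := hodd
  obtain ⟨u, w, huw⟩ := hc
  obtain ⟨b1, w1, hb1⟩ := hb
  -- v0 = u * m
  obtain ⟨y, hy1, hy2, t, ht⟩ := exists_res n (g2 + 1) (u*m*b) (by omega)
  have key : g2 + 1 + n - 1 ≤ h := by
    have : (g - 2)*(n - 1) ≥ 2 := by nlinarith
    nlinarith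
  refine okO (v := u*m + n*(t*b1)) (x := g*m) (y := y) hd ⟨-(m*w) + t*b1*a', ?_⟩
    ⟨-(t*w1), ?_⟩ (by nlinarith) ?_ (by omega) (by omega) ?_
  · rw [hag, hdg]
    linear_combination g*m*huw
  · rw [hdg]
    linear_combination n*t*hb1 - ht
  · nlinarith
  · nlinarith

theorem even_small {d h m : ℤ} (hd : d = 2*h+1) (hm : 1 ≤ m) (hmh : 2*m ≤ h) :
    (∃ v x y : ℤ, d ∣ v - x ∧ d ∣ 2*m*v - y ∧ 0 ≤ x ∧ x ≤ h ∧ 0 ≤ y ∧ y ≤ h ∧ h + 1 ≤ x + y) ∨
      (m = 1 ∧ h = 3) := by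
  by_cases h0 : h = 2*m
  · left
    exact ⟨1, 1, 2*m, ⟨0, by ring⟩, ⟨0, by ring⟩, by omega, by omega, by omega, by omega, by omega⟩
  by_cases h1 : m = 1 ∧ h = 3
  · right
    exact h1
  left
  have h2 : 2*m*(2*m) ≤ d*(m-1) + h := by
    by_cases hm1 : m = 1
    · subst hm1
      omega
    · have h3 : 2 ≤ m := by omega
      have h4 : 2*m+1 ≤ h := by omega
      subst hd
      nlinarith [mul_nonneg (sub_nonneg.2 h4) (by omega : (0:ℤ) ≤ m - 1)]
  have hm0 : (0:ℤ) < 2*m := by omega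
  obtain ⟨v, hv⟩ : ∃ v, v = (d*(m-1) + h) / (2*m) := ⟨_, rfl⟩
  have h3 : 2*m ≤ v := by
    rw [hv]
    exact Int.le_ediv_of_mul_le hm0 h2
  have h4 : v*(2*m) ≤ d*(m-1) + h := by
    rw [hv]
    exact Int.ediv_mul_le _ hm0.ne'
  have h5 : d*(m-1) + h < (v+1)*(2*m) := by
    rw [hv]
    exact Int.lt_ediv_add_one_mul_self _ hm0
  refine ⟨v, v, 2*m*v - d*(m-1), ⟨0, by ring⟩, ⟨m-1, by ring⟩, by omega, ?_, ?_, ?_, ?_⟩
  · by_contra hcon
    have h6 : h + 1 ≤ v := by omega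
    subst hd
    nlinarith
  · nlinarith
  · nlinarith
  · nlinarith

end CO

open CO

theorem caseO : CaseO := by
  rintro d a b hd3 ⟨h, hd⟩ hg
  by_cases hda : d ∣ a
  · exact Or.inr (Or.inl hda)
  have hgp : 0 < (Int.gcd a d : ℤ) := by
    have := Int.gcd_pos_of_ne_zero_right a (by omega : d ≠ 0)
    exact_mod_cast this
  obtain ⟨g, hgd⟩ : ∃ g : ℤ, g = Int.gcd a d := ⟨_, rfl⟩
  obtain ⟨a', ha'⟩ : g ∣ a := by rw [hgd]; exact Int.gcd_dvd_left _ _
  obtain ⟨n, hn⟩ : g ∣ d := by rw [hgd]; exact Int.gcd_dvd_right _ _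
  obtain ⟨r, s, hrs⟩ : ∃ r s : ℤ, g = a*r + d*s := ⟨_, _, by rw [hgd]; exact Int.gcd_eq_gcd_ab a d⟩
  rw [← hgd] at hgp
  have hcop : IsCoprime a' n := by
    refine ⟨r, s, ?_⟩
    have h1 : g * (a'*r + n*s) = g * 1 := by
      rw [mul_one]
      nth_rewrite 2 [hrs]
      rw [ha', hn]
      ring
    have h2 := mul_left_cancel₀ hgp.ne' h1
    linear_combination h2
  by_cases hg1 : g = 1
  · -- coprime case
    subst hg1
    rw [one_mul] at hn ha'
    subst hn ha'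
    -- a * r = 1 mod d
    have har : d ∣ a*r - 1 := ⟨-s, by linear_combination -hrs⟩
    obtain ⟨β, hβ⟩ : ∃ β, β = (b*r) % d := ⟨_, rfl⟩
    have hβ0 : 0 ≤ β := by rw [hβ]; exact Int.emod_nonneg _ (by omega)
    have hβ1 : β < d := by rw [hβ]; exact Int.emod_lt_of_pos _ (by omega)
    have hβd : d ∣ b*r - β := by
      rw [hβ]
      exact Int.dvd_self_sub_emod
    -- b = a β mod d
    have hbd : d ∣ b - a*β := by
      obtain ⟨p, hp⟩ := har
      obtain ⟨s', hs'⟩ := hβd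
      exact ⟨a*s' - b*p, by linear_combination a*hs' - b*hp⟩
    have red : ∀ v x y : ℤ, d ∣ v - x → d ∣ β*v - y → 0 ≤ x → x ≤ h → 0 ≤ y → y ≤ h →
        h + 1 ≤ x + y → Rot d (2*a) (2*b) (-(2*(a+b))) := by
      rintro v x y ⟨p1, hp1⟩ ⟨p2, hp2⟩ x0 xh y0 yh hxy
      obtain ⟨p, hp⟩ := har
      obtain ⟨s', hs'⟩ := hβd
      refine okO (v := v*r) (x := x) (y := y) hd ⟨p*v + p1, ?_⟩ ⟨s'*v + p2, ?_⟩ x0 xh y0 yh hxy
      · linear_combination v*hp + hp1
      · linear_combination v*hs' + hp2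
    by_cases hb0 : β = 0
    · right; right; left
      rw [hb0, mul_zero, sub_zero] at hbd
      exact hbd
    by_cases hb1 : β = d - 1
    · right; right; right; left
      obtain ⟨p, hp⟩ := hbd
      exact ⟨p + a, by rw [hb1] at hp; linear_combination hp⟩
    rcases Int.even_or_odd β with ⟨m, hm⟩ | ⟨m, hm⟩
    · -- even
      rcases le_or_gt β h with hle | hlt
      · rcases even_small (m := m) hd (by omega) (by omega) with ⟨v, x, y, h1, h2, h3⟩ | ⟨h1, h2⟩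
        · left
          refine red v x y h1 ?_ h3.1 h3.2.1 h3.2.2.1 h3.2.2.2.1 h3.2.2.2.2
          rw [hm, ← two_mul]
          exact h2
        · right; right; right; right
          have hd7 : d = 7 := by omega
          refine ⟨hd7, Or.inl ?_⟩
          rw [hm, h1, hd7] at hbd
          obtain ⟨p, hp⟩ := hbd
          exact ⟨p, by linear_combination hp⟩
      · -- symmetry
        obtain ⟨m', hm'⟩ : ∃ m', m' = h - m := ⟨_, rfl⟩
        rcases even_small (m := m') hd (by omega) (by omega) with ⟨v, x, z, h1, h2, h3⟩ | ⟨h1, h2⟩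
        · left
          obtain ⟨p1, hp1⟩ := h1
          obtain ⟨p2, hp2⟩ := h2
          refine red v x (d - x - z) ⟨p1, hp1⟩ ⟨v - 1 - p1 - p2, ?_⟩ h3.1 h3.2.1 (by omega)
            (by omega) (by omega)
          rw [hm]
          rw [hm'] at hp2
          linear_combination (-1)*hp1 - hp2 - v*hd
        · right; right; right; right
          have hd7 : d = 7 := by omega
          refine ⟨hd7, Or.inr ?_⟩
          have hm2 : m = 2 := by omega
          rw [hm, hm2, hd7] at hbd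
          obtain ⟨p, hp⟩ := hbd
          exact ⟨p, by linear_combination hp⟩
    · -- odd
      left
      refine red h h (h - m) ⟨0, by ring⟩ ⟨m, ?_⟩ (by omega) le_rfl (by omega) (by omega) (by omega)
      rw [hm, hd]
      ring
  · -- not coprime
    left
    have hn1 : n ≠ 1 := by
      rintro rfl
      rw [mul_one] at hn
      exact hda ⟨a', by rw [hn]; exact ha'⟩
    have hodd : Odd (g*n) := ⟨h, by rw [← hn]; exact hd⟩
    have hodd' := Int.odd_mul.1 hodd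
    obtain ⟨⟨g2, hg2⟩, m, hm⟩ := hodd'
    have hnpos : 0 < n := by
      by_contra hcon
      have h1 : g*n ≤ 0 := mul_nonpos_of_nonneg_of_nonpos hgp.le (by omega)
      omega
    have hbg : IsCoprime b g := by
      rw [Int.isCoprime_iff_gcd_eq_one]
      have h1 := hg (Int.gcd b g) (by
        have := Int.gcd_pos_of_ne_zero_right b hgp.ne'
        exact_mod_cast this) ((Int.gcd_dvd_right b g).trans ⟨n, hn⟩)
        ((Int.gcd_dvd_right b g).trans ⟨a', ha'⟩) (Int.gcd_dvd_left b g)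
      exact_mod_cast h1
    exact nc hd hn ha' (by omega) (by omega) hcop hbg

end NH21.Unav
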