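import Mathlib

/-!
# Two-element unavoidable sets of partial words (MP_24bad9_co): definitions

Statements of the independent parts of the project (`CaseE`, `CaseO`, `Un1`, `Un2`, `Un3`, `Un5`,
`Sporadic`, `WordsIff`), with the combinatorial core: colourings `w : ℤ → Bool` of the integers
avoiding the pattern `Q` in colour `true` and the pattern `P` in colour `false`.
-/

namespace NH21.Unav

/-- There is a two-colouring of `ℤ` in which no translate of `Q` is all `true` and no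
translate of `P` is all `false`. -/
def Avoid (Q P : List ℤ) : Prop :=
  ∃ w : ℤ → Bool, (∀ x : ℤ, ∃ t ∈ Q, w (x + t) = false) ∧ (∀ x : ℤ, ∃ t ∈ P, w (x + t) = true)

/-- Certificate for a rotation colouring (`a + b + c = 0` in all applications). -/
def Rot (d a b c : ℤ) : Prop :=
  ∃ N K x y z s : ℤ, 0 < N ∧ N ∣ a * K - x ∧ N ∣ b * K - y ∧ N ∣ c * K - z ∧ N ∣ d * K - s ∧
    0 ≤ x ∧ 0 ≤ y ∧ 0 ≤ z ∧ x + y + z = N ∧
    x ≤ s ∧ x + s ≤ N ∧ y ≤ s ∧ y + s ≤ N ∧ z ≤ s ∧ z + s ≤ N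

/-- Case E of the main construction (job UA-1). -/
def CaseE : Prop :=
  ∀ d a b : ℤ, 2 ≤ d → Even d → Odd a → Odd b →
    (∀ g : ℤ, 0 < g → g ∣ d → g ∣ a → g ∣ b → g = 1) →
    Rot d a b (-(a + b)) ∨ 2 * d ∣ a + b ∨ 2 * d ∣ b - a - d

/-- Case O of the main construction (job UA-2). -/
def CaseO : Prop :=
  ∀ d a b : ℤ, 3 ≤ d → Odd d →
    (∀ g : ℤ, 0 < g → g ∣ d → g ∣ a → g ∣ b → g = 1) →
    Rot d (2 * a) (2 * b) (-(2 * (a + b))) ∨ d ∣ a ∨ d ∣ b ∨ d ∣ a + b ∨
      (d = 7 ∧ ((7 : ℤ) ∣ b - 2 * a ∨ (7 : ℤ) ∣ b - 4 * a))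

/-- Two gaps with different 2-adic valuations (job UA-3, first part). -/
def Un1 : Prop :=
  ∀ d p : ℤ, d ≠ 0 → p ≠ 0 → padicValInt 2 d ≠ padicValInt 2 p → ¬ Avoid [0, d] [0, p]

/-- The families A and B (job UA-3, second part); `p` may be negative. -/
def Un2 : Prop :=
  ∀ d p : ℤ, 0 < d → p ≠ 0 → padicValInt 2 p < padicValInt 2 d →
    ¬ Avoid [0, d] [0, p, 2 * p + d]

/-- The family C (job UA-4, first part). -/
def Un3 : Prop :=
  ∀ d e : ℤ, 0 < e → e < d → e ∣ d →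
    ¬ Avoid [0, d] [0, d - e, 2 * d] ∧ ¬ Avoid [0, d] [0, d + e, 2 * d]

/-- The family of three gaps (job UA-4, second part). -/
def Un5 : Prop :=
  ∀ j e : ℤ, 2 ≤ j → 0 < e →
    ¬ Avoid [0, 2 * j * e] [0, 2 * j * e + e, 2 * j * e + 2 * e, 2 * (2 * j * e)] ∧
    ¬ Avoid [0, 2 * j * e] [0, 2 * j * e - 2 * e, 2 * j * e - e, 2 * (2 * j * e)]

/-- The sporadic example (job UA-5). -/
def Sporadic : Prop :=
  ∀ e : ℤ, 0 < e → ¬ Avoid [0, 7 * e] [0, 2 * e, 6 * e] ∧ ¬ Avoid [0, 7 * e] [0, 4 * e, 6 * e]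

/-! ### Words -/

/-- A partial word over `A`: a finite word over `A ∪ {⋄}`; `none` is the hole `⋄`. -/
abbrev PWord (A : Type) : Type := List (Option A)

/-- Compatibility of two partial words of a common length: they agree at every index where
neither has a hole. -/
def Compatible {A : Type} (u v : PWord A) : Prop :=
  u.length = v.length ∧
    ∀ (i : ℕ) (x y : A), u[i]? = some (some x) → v[i]? = some (some y) → x = y

/-- The factor `w(i+1) w(i+2) ⋯ w(i+r)` of a two-sided infinite word `w`. -/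
def factor {A : Type} (w : ℤ → A) (i : ℤ) (r : ℕ) : PWord A :=
  (List.range r).map (fun j => some (w (i + 1 + (j : ℤ))))

/-- A set `X` of partial words is unavoidable if every two-sided infinite word has a factor
compatible with some element of `X`. -/
def Unavoidable {A : Type} (X : Set (PWord A)) : Prop :=
  ∀ w : ℤ → A, ∃ (i : ℤ) (r : ℕ), ∃ u ∈ X, Compatible (factor w i r) u

/-- The partial word `c ⋄^{m₁} c ⋄^{m₂} c ⋯ ⋄^{m_k} c`. -/
def spaced {A : Type} (c : A) : List ℕ → PWord A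
  | [] => [some c]
  | m :: ms => some c :: (List.replicate m none ++ spaced c ms)

/-- The positions of the letters of `c ⋄^{m₁} c ⋯ ⋄^{m_k} c`, the first being `0`. -/
def offs : List ℕ → List ℤ
  | [] => [0]
  | m :: ms => 0 :: (offs ms).map (fun t => t + ((m : ℤ) + 1))

/-- Words and patterns (job UA-6); the letters `a`, `b` are `true`, `false`. -/
def WordsIff : Prop :=
  ∀ m n : List ℕ, Unavoidable {spaced true m, spaced false n} ↔ ¬ Avoid (offs m) (offs n)

/-! ### The answer -/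

/-- The unavoidable pairs with one gap `d` against two gaps `p, r`. -/
def L3 (d p r : ℕ) : Prop :=
  (r = p + d ∧ padicValNat 2 p < padicValNat 2 d) ∨
  (p = r + d ∧ padicValNat 2 r < padicValNat 2 d) ∨
  (d = 2 * p + r ∧ padicValNat 2 p < padicValNat 2 d) ∨
  (d = p + 2 * r ∧ padicValNat 2 r < padicValNat 2 d) ∨
  (∃ e, 0 < e ∧ e < d ∧ e ∣ d ∧ ((p = d - e ∧ r = d + e) ∨ (p = d + e ∧ r = d - e))) ∨
  (∃ e, 0 < e ∧ d = 7 * e ∧ ((p = 2 * e ∧ r = 4 * e) ∨ (p = 4 * e ∧ r = 2 * e)))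

/-- The unavoidable pairs with one gap `d` against three gaps `p, r, s`. -/
def L4 (d p r s : ℕ) : Prop :=
  ∃ e j, 0 < e ∧ 2 ≤ j ∧ d = 2 * j * e ∧ r = e ∧
    ((p = d + e ∧ s = d - 2 * e) ∨ (p = d - 2 * e ∧ s = d + e))

end NH21.Unav
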