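import Pool.Agent.NH21.Unav.Defs

namespace NH21.Unav

theorem spor_aux (g : ℤ → Bool) (h1 : ∀ x, g x = true → g (x + 7) = false)
    (h2 : ∀ x, g x = true ∨ g (x + 2) = true ∨ g (x + 6) = true) (h0 : g 0 = true) : False := by
  have a0 : g (-12) = true → g (-5) = false := h1 (-12)
  have a1 : g (-11) = true → g (-4) = false := h1 (-11)
  have a2 : g (-10) = true → g (-3) = false := h1 (-10)
  have a3 : g (-9) = true → g (-2) = false := h1 (-9)
  have a4 : g (-8) = true → g (-1) = false := h1 (-8)
  have a5 : g (-7) = true → g (0) = false := h1 (-7)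
  have a6 : g (-6) = true → g (1) = false := h1 (-6)
  have a7 : g (-5) = true → g (2) = false := h1 (-5)
  have a8 : g (-4) = true → g (3) = false := h1 (-4)
  have a9 : g (-3) = true → g (4) = false := h1 (-3)
  have a10 : g (-2) = true → g (5) = false := h1 (-2)
  have a11 : g (-1) = true → g (6) = false := h1 (-1)
  have a12 : g (0) = true → g (7) = false := h1 (0)
  have a13 : g (1) = true → g (8) = false := h1 (1)
  have a14 : g (2) = true → g (9) = false := h1 (2)
  have a15 : g (3) = true → g (10) = false := h1 (3)
  have a16 : g (4) = true → g (11) = false := h1 (4)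
  have a17 : g (5) = true → g (12) = false := h1 (5)
  have b0 : g (-12) = true ∨ g (-10) = true ∨ g (-6) = true := h2 (-12)
  have b1 : g (-11) = true ∨ g (-9) = true ∨ g (-5) = true := h2 (-11)
  have b2 : g (-10) = true ∨ g (-8) = true ∨ g (-4) = true := h2 (-10)
  have b3 : g (-9) = true ∨ g (-7) = true ∨ g (-3) = true := h2 (-9)
  have b4 : g (-8) = true ∨ g (-6) = true ∨ g (-2) = true := h2 (-8)
  have b5 : g (-7) = true ∨ g (-5) = true ∨ g (-1) = true := h2 (-7)
  have b6 : g (-6) = true ∨ g (-4) = true ∨ g (0) = true := h2 (-6)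
  have b7 : g (-5) = true ∨ g (-3) = true ∨ g (1) = true := h2 (-5)
  have b8 : g (-4) = true ∨ g (-2) = true ∨ g (2) = true := h2 (-4)
  have b9 : g (-3) = true ∨ g (-1) = true ∨ g (3) = true := h2 (-3)
  have b10 : g (-2) = true ∨ g (0) = true ∨ g (4) = true := h2 (-2)
  have b11 : g (-1) = true ∨ g (1) = true ∨ g (5) = true := h2 (-1)
  have b12 : g (0) = true ∨ g (2) = true ∨ g (6) = true := h2 (0)
  have b13 : g (1) = true ∨ g (3) = true ∨ g (7) = true := h2 (1)
  have b14 : g (2) = true ∨ g (4) = true ∨ g (8) = true := h2 (2)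
  have b15 : g (3) = true ∨ g (5) = true ∨ g (9) = true := h2 (3)
  have b16 : g (4) = true ∨ g (6) = true ∨ g (10) = true := h2 (4)
  have b17 : g (5) = true ∨ g (7) = true ∨ g (11) = true := h2 (5)
  have b18 : g (6) = true ∨ g (8) = true ∨ g (12) = true := h2 (6)
  clear h1 h2
  generalize g (-12) = v0 at *
  generalize g (-11) = v1 at *
  generalize g (-10) = v2 at *
  generalize g (-9) = v3 at *
  generalize g (-8) = v4 at *
  generalize g (-7) = v5 at *
  generalize g (-6) = v6 at *
  generalize g (-5) = v7 at *
  generalize g (-4) = v8 at *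
  generalize g (-3) = v9 at *
  generalize g (-2) = v10 at *
  generalize g (-1) = v11 at *
  generalize g 0 = v12 at *
  generalize g (1) = v13 at *
  generalize g (2) = v14 at *
  generalize g (3) = v15 at *
  generalize g (4) = v16 at *
  generalize g (5) = v17 at *
  generalize g (6) = v18 at *
  generalize g (7) = v19 at *
  generalize g (8) = v20 at *
  generalize g (9) = v21 at *
  generalize g (10) = v22 at *
  generalize g (11) = v23 at *
  generalize g (12) = v24 at *
  cases v2 <;> cases v0 <;> cases v4 <;> simp_all

theorem spor1 (w : ℤ → Bool) (h1 : ∀ x, w x = true → w (x + 7) = false)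
    (h2 : ∀ x, w x = true ∨ w (x + 2) = true ∨ w (x + 6) = true) : False := by
  obtain ⟨y, hy⟩ : ∃ y, w y = true := by
    rcases h2 0 with h | h | h
    · exact ⟨_, h⟩
    · exact ⟨_, h⟩
    · exact ⟨_, h⟩
  refine spor_aux (fun x => w (y + x)) (fun x hx => ?_) (fun x => ?_) (by simpa using hy)
  · have := h1 _ hx
    rwa [add_assoc] at this
  · have := h2 (y + x)
    rwa [add_assoc, add_assoc] at this

theorem sporadic : Sporadic := by
  intro e he
  constructor
  · rintro ⟨w, h1, h2⟩
    refine spor1 (fun x => w (e * x)) ?_ ?_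
    · intro x hx
      obtain ⟨t, ht, h⟩ := h1 (e * x)
      simp only [List.mem_cons, List.not_mem_nil, or_false] at ht
      rcases ht with rfl | rfl
      · rw [add_zero] at h; exact absurd (h.symm.trans hx) (by decide)
      · show w (e * (x + 7)) = false
        rw [← h]; congr 1; ring
    · intro x
      obtain ⟨t, ht, h⟩ := h2 (e * x)
      simp only [List.mem_cons, List.not_mem_nil, or_false] at ht
      rcases ht with rfl | rfl | rfl
      · left; rw [add_zero] at h; exact h
      · right; left; show w (e * (x + 2)) = true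
        rw [← h]; congr 1; ring
      · right; right; show w (e * (x + 6)) = true
        rw [← h]; congr 1; ring
  · rintro ⟨w, h1, h2⟩
    refine spor1 (fun x => w (-(e * x))) ?_ ?_
    · intro x hx
      obtain ⟨t, ht, h⟩ := h1 (-(e * (x + 7)))
      simp only [List.mem_cons, List.not_mem_nil, or_false] at ht
      rcases ht with rfl | rfl
      · rw [add_zero] at h; exact h
      · exfalso
        have e1 : -(e * (x + 7)) + 7 * e = -(e * x) := by ring
        rw [e1] at h; exact absurd (h.symm.trans hx) (by decide)
    · intro x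
      obtain ⟨t, ht, h⟩ := h2 (-(e * (x + 6)))
      simp only [List.mem_cons, List.not_mem_nil, or_false] at ht
      rcases ht with rfl | rfl | rfl
      · right; right; rw [add_zero] at h; exact h
      · right; left; show w (-(e * (x + 2))) = true
        rw [← h]; congr 1; ring
      · left; show w (-(e * x)) = true
        rw [← h]; congr 1; ring

end NH21.Unav
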