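import Mathlib
import Pool.Agent.NH21.Unav.Defs

/-!
# UA-3: unavoidability of the pairs with two gaps and of the families A and B
-/

namespace NH21.Unav

namespace Un12

theorem dec (d : ℤ) (hd : d ≠ 0) : ∃ m : ℤ, Odd m ∧ d = 2 ^ padicValInt 2 d * m := by
  obtain ⟨k, m, hm, hk⟩ := Nat.exists_eq_two_pow_mul_odd (Int.natAbs_ne_zero.2 hd)
  have hm0 : m ≠ 0 := by
    rintro rfl
    exact (by decide : ¬ Odd 0) hm
  have h1 : padicValInt 2 d = k := by
    unfold padicValInt
    rw [hk, padicValNat.mul (pow_ne_zero _ two_ne_zero) hm0, padicValNat.prime_pow,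
      padicValNat.eq_zero_of_not_dvd hm.not_two_dvd_nat, add_zero]
  rw [h1]
  rcases Int.natAbs_eq d with h | h
  · refine ⟨m, by exact_mod_cast hm, ?_⟩
    conv_lhs => rw [h, hk]
    push_cast
    ring
  · refine ⟨-m, ?_, ?_⟩
    · rw [Int.odd_iff] at *
      have h2 := Nat.odd_iff.1 hm
      omega
    · conv_lhs => rw [h, hk]
      push_cast
      ring

theorem flip_even {w : ℤ → Bool} {d : ℤ} (h : ∀ x, w (x + d) = !w x) (k : ℤ) :
    ∀ x, w (x + 2 * k * d) = w x := by
  have h2 : ∀ x, w (x + 2 * d) = w x := by
    intro x
    have h3 := h (x + d)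
    rw [h x, Bool.not_not] at h3
    rw [← h3]
    congr 1
    ring
  induction k using Int.induction_on with
  | zero => intro x; congr 1; ring
  | succ n ih =>
    intro x
    rw [← ih x, ← h2 (x + 2 * n * d)]
    congr 1
    ring
  | pred n ih =>
    intro x
    have h3 := ih x
    rw [← h3, ← h2 (x + 2 * (-n - 1) * d)]
    congr 1
    ring

theorem flip_odd {w : ℤ → Bool} {d : ℤ} (h : ∀ x, w (x + d) = !w x) {n : ℤ} (hn : Odd n) (x : ℤ) :
    w (x + n * d) = !w x := by
  obtain ⟨k, rfl⟩ := hn
  rw [← flip_even h k x, ← h]
  congr 1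
  ring

/-- The core of the case of two gaps. -/
theorem core {w : ℤ → Bool} {d p : ℤ} (hd : d ≠ 0) (hp : p ≠ 0)
    (h1 : ∀ x, w x = false ∨ w (x + d) = false) (h2 : ∀ x, w x = true ∨ w (x + p) = true) :
    padicValInt 2 d = padicValInt 2 p := by
  have hfd : ∀ x, w (x + d) = !w x := by
    intro x
    cases hx : w x with
    | true =>
      rcases h1 x with h | h
      · rw [h] at hx
        exact absurd hx (by decide)
      · rw [h]; rfl
    | false =>
      by_contra hc
      have hc' : w (x + d) = false := by
        cases hh : w (x + d) with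
        | true => exact absurd hh hc
        | false => rfl
      have h3 : w (x + p) = true := (h2 x).resolve_left (by rw [hx]; decide)
      have h4 : w (x + d + p) = true := (h2 (x + d)).resolve_left (by rw [hc']; decide)
      rcases h1 (x + p) with h | h
      · rw [h3] at h
        exact absurd h (by decide)
      · rw [show x + p + d = x + d + p by ring, h4] at h
        exact absurd h (by decide)
  have hfp : ∀ x, w (x + p) = !w x := by
    intro x
    cases hx : w x with
    | false =>
      rw [(h2 x).resolve_left (by rw [hx]; decide)]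
      rfl
    | true =>
      by_contra hc
      have hc' : w (x + p) = true := by
        cases hh : w (x + p) with
        | true => rfl
        | false => exact absurd hh hc
      have h3 : w (x + d) = false := (h1 x).resolve_left (by rw [hx]; decide)
      have h4 : w (x + p + d) = false := (h1 (x + p)).resolve_left (by rw [hc']; decide)
      rcases h2 (x + d) with h | h
      · rw [h3] at h
        exact absurd h (by decide)
      · rw [show x + d + p = x + p + d by ring, h4] at h
        exact absurd h (by decide)
  obtain ⟨d1, hd1, hd2⟩ := dec d hd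
  obtain ⟨p1, hp1, hp2⟩ := dec p hp
  have key : ∀ {a b : ℕ} {d p d1 p1 : ℤ}, (∀ x, w (x + d) = !w x) → (∀ x, w (x + p) = !w x) →
      d = 2 ^ a * d1 → p = 2 ^ b * p1 → Odd d1 → a < b → False := by
    intro a b d p d1 p1 hfd hfp hd2 hp2 hd1 hab
    have h3 := flip_odd hfp hd1 0
    have h4 := flip_even hfd (2 ^ (b - a - 1) * p1) 0
    have h5 : (2 : ℤ) * (2 ^ (b - a - 1) * p1) * d = d1 * p := by
      rw [hd2, hp2]
      have h6 : b = (b - a - 1) + 1 + a := by omega
      conv_rhs => rw [h6, pow_add, pow_succ]
      ring
    rw [h5, h3] at h4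
    cases hw : w 0 <;> rw [hw] at h4 <;> exact absurd h4 (by decide)
  rcases lt_trichotomy (padicValInt 2 d) (padicValInt 2 p) with h | h | h
  · exact (key hfd hfp hd2 hp2 hd1 h).elim
  · exact h
  · exact (key hfp hfd hp2 hd2 hp1 h).elim

end Un12

open Un12

theorem un1 : Un1 := by
  rintro d p hd hp hv ⟨w, h1, h2⟩
  refine hv (core (w := w) hd hp (fun x => ?_) (fun x => ?_))
  · obtain ⟨t, ht, h⟩ := h1 x
    simp only [List.mem_cons, List.not_mem_nil, or_false] at ht
    rcases ht with rfl | rfl
    · left
      rwa [add_zero] at h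
    · exact Or.inr h
  · obtain ⟨t, ht, h⟩ := h2 x
    simp only [List.mem_cons, List.not_mem_nil, or_false] at ht
    rcases ht with rfl | rfl
    · left
      rwa [add_zero] at h
    · exact Or.inr h

theorem un2 : Un2 := by
  rintro d p hd hp hv ⟨w, h1, h2⟩
  have k1 : ∀ x, w x = true → w (x + d) = false := by
    intro x hx
    obtain ⟨t, ht, h⟩ := h1 x
    simp only [List.mem_cons, List.not_mem_nil, or_false] at ht
    rcases ht with rfl | rfl
    · rw [add_zero, hx] at h
      exact absurd h (by decide)
    · exact h
  have k1' : ∀ x, w (x + d) = true → w x = false := by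
    intro x hx
    cases hh : w x with
    | false => rfl
    | true =>
      rw [k1 x hh] at hx
      exact absurd hx (by decide)
  have k2 : ∀ x, w x = false → w (x + p) = false → w (x + (2 * p + d)) = true := by
    intro x hx hx'
    obtain ⟨t, ht, h⟩ := h2 x
    simp only [List.mem_cons, List.not_mem_nil, or_false] at ht
    rcases ht with rfl | rfl | rfl
    · rw [add_zero, hx] at h
      exact absurd h (by decide)
    · rw [hx'] at h
      exact absurd h (by decide)
    · exact h
  by_cases hcase : ∃ x, w x = false ∧ w (x + p) = false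
  · obtain ⟨x, hx, hx'⟩ := hcase
    -- the ray of `false`
    have ray : ∀ y, w y = false → w (y + p) = false → ∀ j : ℕ, w (y + j * p) = false ∧
        w (y + (j + 1) * p) = false := by
      intro y hy hy' j
      induction j with
      | zero =>
        refine ⟨?_, ?_⟩
        · rw [← hy]; congr 1; push_cast; ring
        · rw [← hy']; congr 1; push_cast; ring
      | succ n ih =>
        obtain ⟨i1, i2⟩ := ih
        have h3 := k2 (y + n * p) i1 (by rw [← i2]; congr 1; ring)
        have h4 := k1' (y + (n + 2) * p) (by rw [← h3]; congr 1; ring)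
        have e1 : y + ((n + 1 : ℕ) : ℤ) * p = y + (n + 1) * p := by push_cast; ring
        have e2 : y + (((n + 1 : ℕ) : ℤ) + 1) * p = y + (n + 2) * p := by push_cast; ring
        rw [e1, e2]
        exact ⟨i2, h4⟩
    have up : ∀ y, (∀ j : ℕ, w (y + j * p) = false) →
        ∀ j : ℕ, w (y + 2 * p + d + j * p) = true := by
      intro y hy j
      rw [← k2 (y + j * p) (hy j) (by rw [← hy (j + 1)]; congr 1; push_cast; ring)]
      congr 1
      ring
    have fn : ∀ n : ℕ, ∀ j : ℕ, w (x + 2 * n * (p + d) + j * p) = false := by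
      intro n
      induction n with
      | zero =>
        intro j
        rw [← (ray x hx hx' j).1]
        congr 1
        push_cast
        ring
      | succ n ih =>
        intro j
        have h3 := up _ ih j
        have h4 := k1 _ h3
        rw [← h4]
        congr 1
        push_cast
        ring
    obtain ⟨d1, hd1, hd2⟩ := dec d hd.ne'
    obtain ⟨p1, hp1, hp2⟩ := dec p hp
    obtain ⟨a, ha⟩ : ∃ a, a = padicValInt 2 d := ⟨_, rfl⟩
    obtain ⟨b, hb⟩ : ∃ b, b = padicValInt 2 p := ⟨_, rfl⟩
    rw [← ha] at hd2 hv
    rw [← hb] at hp2 hv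
    have hodd : Odd p1.natAbs := Int.natAbs_odd.2 hp1
    obtain ⟨n, hn⟩ := hodd
    -- the multiple of `p`
    obtain ⟨c, hc⟩ : ∃ c : ℤ, (p1.natAbs : ℤ) * d = c * p := by
      have h6 : a = (a - b) + b := by omega
      have h7 : p1 * d = (2 ^ (a - b) * d1) * p := by
        rw [h6, pow_add] at hd2
        rw [hd2, hp2]
        ring
      rcases Int.natAbs_eq p1 with h | h
      · refine ⟨2 ^ (a - b) * d1, ?_⟩
        rw [← h, h7]
      · refine ⟨-(2 ^ (a - b) * d1), ?_⟩
        have h8 : (p1.natAbs : ℤ) = -p1 := by omega
        rw [h8, neg_mul, h7, neg_mul]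
    have h3 := up _ (fn n) c.natAbs
    have h5 : (0 : ℤ) ≤ c + 2 * n + 2 + c.natAbs := by omega
    have h4 := (ray x hx hx' (c + 2 * n + 2 + c.natAbs).toNat).1
    rw [Int.toNat_of_nonneg h5] at h4
    have h6 : (p1.natAbs : ℤ) = 2 * n + 1 := by exact_mod_cast hn
    have h7 : x + 2 * (n : ℤ) * (p + d) + 2 * p + d + (c.natAbs : ℤ) * p =
        x + (c + 2 * n + 2 + c.natAbs) * p := by
      rw [h6] at hc
      linear_combination hc
    rw [h7, h4] at h3
    exact absurd h3 (by decide)
  · push Not at hcase
    have h3 := core (w := w) hd.ne' hp (fun x => ?_) (fun x => ?_)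
    · omega
    · cases hh : w x with
      | false => exact Or.inl rfl
      | true => exact Or.inr (k1 x hh)
    · cases hh : w x with
      | true => exact Or.inl rfl
      | false =>
        right
        cases h4 : w (x + p) with
        | true => rfl
        | false => exact absurd h4 (hcase x hh)

end NH21.Unav
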