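import Pool.Agent.NH21.Unav.Defs

namespace NH21.Unav

theorem un3_aux (n : ℤ) (hn : 2 ≤ n) (w : ℤ → Bool) (c : ℤ) (hc : c = 1 ∨ c = -1)
    (h1 : ∀ x, w x = true → w (x + n) = false)
    (h2 : ∀ x, w x = true ∨ w (x + (n + c)) = true ∨ w (x + 2 * n) = true) : False := by
  have step : ∀ y, w y = true → w (y + c) = true := by
    intro y hy
    have a1 := h1 y hy
    have a2 : w (y - n) = false := by
      by_contra hcon
      have := h1 (y - n) (by simpa using hcon)
      rw [sub_add_cancel] at this
      rw [hy] at this; exact absurd this (by decide)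
    rcases h2 (y - n) with h | h | h
    · rw [a2] at h; exact absurd h (by decide)
    · have e : y - n + (n + c) = y + c := by ring
      rwa [e] at h
    · have e : y - n + 2 * n = y + n := by ring
      rw [e, a1] at h; exact absurd h (by decide)
  have step2 : ∀ k : ℕ, ∀ y, w y = true → w (y + c * k) = true := by
    intro k
    induction k with
    | zero => intro y hy; simpa using hy
    | succ k ih =>
      intro y hy
      have := step _ (ih y hy)
      have e : y + c * (k : ℤ) + c = y + c * ((k + 1 : ℕ) : ℤ) := by push_cast; ring
      rwa [e] at this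
  obtain ⟨y, hy⟩ : ∃ y, w y = true := by
    rcases h2 0 with h | h | h
    · exact ⟨_, h⟩
    · exact ⟨_, h⟩
    · exact ⟨_, h⟩
  have h3 := step2 n.toNat y hy
  have hn' : ((n.toNat : ℕ) : ℤ) = n := Int.toNat_of_nonneg (by omega)
  rw [hn'] at h3
  rcases hc with rfl | rfl
  · rw [one_mul, h1 y hy] at h3; exact absurd h3 (by decide)
  · have h4 := h1 _ h3
    have e : y + -1 * n + n = y := by ring
    rw [e, hy] at h4; exact absurd h4 (by decide)

theorem un3 : Un3 := by
  intro d e he hed ⟨n, hn⟩
  have hn2 : 2 ≤ n := by
    by_contra hc
    have : n ≤ 1 := by omega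
    nlinarith
  constructor
  · rintro ⟨w, h1, h2⟩
    refine un3_aux n hn2 (fun x => w (e * x)) (-1) (Or.inr rfl) ?_ ?_
    · intro x hx
      obtain ⟨t, ht, h⟩ := h1 (e * x)
      simp only [List.mem_cons, List.not_mem_nil, or_false] at ht
      rcases ht with rfl | rfl
      · rw [add_zero] at h; exact absurd (h.symm.trans hx) (by decide)
      · show w (e * (x + n)) = false
        rw [← h, hn]; congr 1; ring
    · intro x
      obtain ⟨t, ht, h⟩ := h2 (e * x)
      simp only [List.mem_cons, List.not_mem_nil, or_false] at ht
      rcases ht with rfl | rfl | rfl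
      · left; rw [add_zero] at h; exact h
      · right; left; show w (e * (x + (n + -1))) = true
        rw [← h, hn]; congr 1; ring
      · right; right; show w (e * (x + 2 * n)) = true
        rw [← h, hn]; congr 1; ring
  · rintro ⟨w, h1, h2⟩
    refine un3_aux n hn2 (fun x => w (e * x)) 1 (Or.inl rfl) ?_ ?_
    · intro x hx
      obtain ⟨t, ht, h⟩ := h1 (e * x)
      simp only [List.mem_cons, List.not_mem_nil, or_false] at ht
      rcases ht with rfl | rfl
      · rw [add_zero] at h; exact absurd (h.symm.trans hx) (by decide)
      · show w (e * (x + n)) = false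
        rw [← h, hn]; congr 1; ring
    · intro x
      obtain ⟨t, ht, h⟩ := h2 (e * x)
      simp only [List.mem_cons, List.not_mem_nil, or_false] at ht
      rcases ht with rfl | rfl | rfl
      · left; rw [add_zero] at h; exact h
      · right; left; show w (e * (x + (n + 1))) = true
        rw [← h, hn]; congr 1; ring
      · right; right; show w (e * (x + 2 * n)) = true
        rw [← h, hn]; congr 1; ring

theorem un5_aux (j : ℤ) (hj : 2 ≤ j) (w : ℤ → Bool)
    (h1 : ∀ x, w x = true → w (x + 2 * j) = false)
    (h2 : ∀ x, w x = true ∨ w (x + (2 * j + 1)) = true ∨ w (x + (2 * j + 2)) = true ∨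
      w (x + 2 * (2 * j)) = true) : False := by
  have step : ∀ y, w y = true → w (y + 1) = true ∨ w (y + 2) = true := by
    intro y hy
    have a1 := h1 y hy
    have a2 : w (y - 2 * j) = false := by
      by_contra hcon
      have := h1 (y - 2 * j) (by simpa using hcon)
      rw [sub_add_cancel, hy] at this; exact absurd this (by decide)
    rcases h2 (y - 2 * j) with h | h | h | h
    · rw [a2] at h; exact absurd h (by decide)
    · left
      have e : y - 2 * j + (2 * j + 1) = y + 1 := by ring
      rwa [e] at h
    · right
      have e : y - 2 * j + (2 * j + 2) = y + 2 := by ring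
      rwa [e] at h
    · have e : y - 2 * j + 2 * (2 * j) = y + 2 * j := by ring
      rw [e, a1] at h; exact absurd h (by decide)
  obtain ⟨y, hy⟩ : ∃ y, w y = true := by
    rcases h2 0 with h | h | h | h
    · exact ⟨_, h⟩
    · exact ⟨_, h⟩
    · exact ⟨_, h⟩
    · exact ⟨_, h⟩
  have inv : ∀ k : ℕ, w (y + k) = true ∨ w (y + k + 1) = true := by
    intro k
    induction k with
    | zero => left; simpa using hy
    | succ k ih =>
      have e : y + ((k + 1 : ℕ) : ℤ) = y + k + 1 := by push_cast; ring
      rw [e]
      rcases ih with h | h
      · rcases step _ h with h' | h'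
        · exact Or.inl h'
        · right
          have e : y + (k : ℤ) + 1 + 1 = y + k + 2 := by ring
          rw [e]; exact h'
      · exact Or.inl h
  have inv2 : ∀ z, y ≤ z → w z = false → w (z + 1) = true := by
    intro z hz hf
    obtain ⟨k, hk⟩ := Int.eq_ofNat_of_zero_le (show 0 ≤ z - y by omega)
    have e : z = y + (k : ℤ) := by omega
    rcases inv k with h | h
    · rw [← e, hf] at h; exact absurd h (by decide)
    · rwa [← e] at h
  have alt : ∀ k : ℕ, w (y + 2 * k) = true := by
    intro k
    induction k with
    | zero => simpa using hy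
    | succ k ih =>
      have a1 := h1 _ ih
      have a2 := inv2 _ (by omega) a1
      have a3 : w (y + 2 * (k : ℤ) + 1) = false := by
        by_contra hcon
        have h4 := h1 _ (show w (y + 2 * (k : ℤ) + 1) = true by simpa using hcon)
        have e : y + 2 * (k : ℤ) + 1 + 2 * j = y + 2 * (k : ℤ) + 2 * j + 1 := by ring
        rw [e, a2] at h4; exact absurd h4 (by decide)
      rcases step _ ih with h | h
      · rw [a3] at h; exact absurd h (by decide)
      · have e : y + 2 * (k : ℤ) + 2 = y + 2 * ((k + 1 : ℕ) : ℤ) := by push_cast; ring
        rwa [e] at h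
  have h5 := alt j.toNat
  have e : ((j.toNat : ℕ) : ℤ) = j := Int.toNat_of_nonneg (by omega)
  rw [e, h1 y hy] at h5
  exact absurd h5 (by decide)

theorem un5 : Un5 := by
  intro j e hj he
  constructor
  · rintro ⟨w, h1, h2⟩
    refine un5_aux j hj (fun x => w (e * x)) ?_ ?_
    · intro x hx
      obtain ⟨t, ht, h⟩ := h1 (e * x)
      simp only [List.mem_cons, List.not_mem_nil, or_false] at ht
      rcases ht with rfl | rfl
      · rw [add_zero] at h; exact absurd (h.symm.trans hx) (by decide)
      · show w (e * (x + 2 * j)) = false
        rw [← h]; congr 1; ring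
    · intro x
      obtain ⟨t, ht, h⟩ := h2 (e * x)
      simp only [List.mem_cons, List.not_mem_nil, or_false] at ht
      rcases ht with rfl | rfl | rfl | rfl
      · left; rw [add_zero] at h; exact h
      · right; left; show w (e * (x + (2 * j + 1))) = true
        rw [← h]; congr 1; ring
      · right; right; left; show w (e * (x + (2 * j + 2))) = true
        rw [← h]; congr 1; ring
      · right; right; right; show w (e * (x + 2 * (2 * j))) = true
        rw [← h]; congr 1; ring
  · rintro ⟨w, h1, h2⟩
    refine un5_aux j hj (fun x => w (-(e * x))) ?_ ?_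
    · intro x hx
      obtain ⟨t, ht, h⟩ := h1 (-(e * (x + 2 * j)))
      simp only [List.mem_cons, List.not_mem_nil, or_false] at ht
      rcases ht with rfl | rfl
      · rw [add_zero] at h; exact h
      · exfalso
        have e1 : -(e * (x + 2 * j)) + 2 * j * e = -(e * x) := by ring
        rw [e1] at h; exact absurd (h.symm.trans hx) (by decide)
    · intro x
      obtain ⟨t, ht, h⟩ := h2 (-(e * (x + 2 * (2 * j))))
      simp only [List.mem_cons, List.not_mem_nil, or_false] at ht
      rcases ht with rfl | rfl | rfl | rfl
      · right; right; right; rw [add_zero] at h; exact h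
      · right; right; left; show w (-(e * (x + (2 * j + 2)))) = true
        rw [← h]; congr 1; ring
      · right; left; show w (-(e * (x + (2 * j + 1)))) = true
        rw [← h]; congr 1; ring
      · left; show w (-(e * x)) = true
        rw [← h]; congr 1; ring

end NH21.Unav
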