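import Pool.Agent.NH21.Unav.Defs

/-!
# Job UA-6 (helper17): words with holes and patterns
-/

namespace NH21.Unav

namespace WordsAux

theorem offs_nonneg (m : List ℕ) : ∀ t ∈ offs m, 0 ≤ t := by
  induction m with
  | nil =>
    intro t ht
    simp [offs] at ht
    omega
  | cons a m ih =>
    intro t ht
    rw [offs, List.mem_cons, List.mem_map] at ht
    rcases ht with rfl | ⟨s, hs, rfl⟩
    · exact le_rfl
    · have := ih s hs
      omega

theorem get_iff {A : Type} (c : A) (m : List ℕ) : ∀ (k : ℕ) (y : A),
    (spaced c m)[k]? = some (some y) ↔ y = c ∧ (k : ℤ) ∈ offs m := by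
  induction m with
  | nil =>
    intro k y
    rw [spaced, offs]
    rcases k with _ | k
    · simp [eq_comm]
    · simp
      intro _
      omega
  | cons a m ih =>
    intro k y
    rw [spaced, offs, List.mem_cons, List.mem_map]
    rcases k with _ | k
    · simp [eq_comm]
    · rw [List.getElem?_cons_succ]
      by_cases hk : k < a
      · rw [List.getElem?_append_left (by rw [List.length_replicate]; exact hk)]
        constructor
        · intro h
          rw [List.getElem?_replicate, if_pos hk] at h
          exact absurd h (by simp)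
        · rintro ⟨_, h | ⟨t, ht, h⟩⟩
          · push_cast at h
            omega
          · have := offs_nonneg m t ht
            push_cast at h
            omega
      · push Not at hk
        rw [List.getElem?_append_right (by rw [List.length_replicate]; exact hk),
          List.length_replicate, ih]
        constructor
        · rintro ⟨h1, h2⟩
          refine ⟨h1, Or.inr ⟨_, h2, ?_⟩⟩
          push_cast [hk]
          ring
        · rintro ⟨h1, h | ⟨t, ht, h⟩⟩
          · push_cast at h
            omega
          · refine ⟨h1, ?_⟩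
            have : ((k - a : ℕ) : ℤ) = t := by
              push_cast [hk] at h ⊢
              omega
            rw [this]
            exact ht

theorem factor_get {A : Type} (w : ℤ → A) (i : ℤ) (r k : ℕ) (h : k < r) :
    (factor w i r)[k]? = some (some (w (i + 1 + (k : ℤ)))) := by
  unfold factor
  have e : (do let a ← List.range r; pure (a : ℤ)) = (List.range r).map (fun a : ℕ => (a : ℤ)) := by
    rw [List.bind_eq_flatMap]
    exact List.flatMap_pure_eq_map _ _
  rw [e, List.map_map, List.getElem?_map, List.getElem?_range h]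
  rfl

theorem compat_iff {A : Type} (c : A) (m : List ℕ) (w : ℤ → A) (i : ℤ) (r : ℕ) :
    Compatible (factor w i r) (spaced c m) ↔
      r = (spaced c m).length ∧ ∀ t ∈ offs m, w (i + 1 + t) = c := by
  have hl : (factor w i r).length = r := by simp [factor]
  unfold Compatible
  rw [hl]
  constructor
  · rintro ⟨h1, h2⟩
    refine ⟨h1, fun t ht => ?_⟩
    obtain ⟨k, rfl⟩ := Int.eq_ofNat_of_zero_le (offs_nonneg m t ht)
    have h3 : (spaced c m)[k]? = some (some c) := (get_iff c m k c).mpr ⟨rfl, ht⟩
    have h4 : k < r := by
      rw [h1]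
      exact (List.getElem?_eq_some_iff.mp h3).1
    exact h2 k _ _ (factor_get w i r k h4) h3
  · rintro ⟨h1, h2⟩
    refine ⟨h1, fun k x y hx hy => ?_⟩
    obtain ⟨h3, h4⟩ := (get_iff c m k y).mp hy
    have h5 : k < r := by
      rw [h1]
      exact (List.getElem?_eq_some_iff.mp hy).1
    rw [factor_get w i r k h5] at hx
    have h6 : w (i + 1 + (k : ℤ)) = x := by simpa using hx
    rw [← h6, h2 k h4, h3]

end WordsAux

theorem wordsIff : WordsIff := by
  intro m n
  have h1 : Unavoidable {spaced true m, spaced false n} ↔ ∀ w : ℤ → Bool, ∃ i : ℤ,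
      (∀ t ∈ offs m, w (i + 1 + t) = true) ∨ (∀ t ∈ offs n, w (i + 1 + t) = false) := by
    unfold Unavoidable
    refine forall_congr' fun w => ?_
    constructor
    · rintro ⟨i, r, u, hu, hc⟩
      refine ⟨i, ?_⟩
      rcases hu with rfl | hu
      · exact Or.inl ((WordsAux.compat_iff true m w i r).mp hc).2
      · rw [Set.mem_singleton_iff] at hu
        subst hu
        exact Or.inr ((WordsAux.compat_iff false n w i r).mp hc).2
    · rintro ⟨i, h | h⟩
      · exact ⟨i, _, _, Or.inl rfl, (WordsAux.compat_iff true m w i _).mpr ⟨rfl, h⟩⟩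
      · exact ⟨i, _, _, Or.inr rfl, (WordsAux.compat_iff false n w i _).mpr ⟨rfl, h⟩⟩
  rw [h1]
  unfold Avoid
  constructor
  · rintro h ⟨w, h2, h3⟩
    obtain ⟨i, h4 | h4⟩ := h w
    · obtain ⟨t, ht, h5⟩ := h2 (i + 1)
      rw [h4 t ht] at h5
      exact absurd h5 (by simp)
    · obtain ⟨t, ht, h5⟩ := h3 (i + 1)
      rw [h4 t ht] at h5
      exact absurd h5 (by simp)
  · intro h w
    by_contra hc
    push Not at hc
    apply h
    refine ⟨w, fun x => ?_, fun x => ?_⟩
    · obtain ⟨t, ht, h5⟩ := (hc (x - 1)).1
      refine ⟨t, ht, ?_⟩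
      rw [show x - 1 + 1 + t = x + t by ring] at h5
      simpa using h5
    · obtain ⟨t, ht, h5⟩ := (hc (x - 1)).2
      refine ⟨t, ht, ?_⟩
      rw [show x - 1 + 1 + t = x + t by ring] at h5
      simpa using h5

end NH21.Unav
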