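import Pool.Agent.NH21.Unav.Arith
import Pool.Agent.NH21.Unav.CaseE
import Pool.Agent.NH21.Unav.CaseO
import Pool.Agent.NH21.Unav.Un12
import Pool.Agent.NH21.Unav.Un35
import Pool.Agent.NH21.Unav.Spor
import Pool.Agent.NH21.Unav.Words

namespace NH21.Unav

/-- The conditions for one gap against one, two or three gaps. -/
def Half : List ℕ → List ℕ → Prop
  | [d], [p] => padicValNat 2 d ≠ padicValNat 2 p
  | [d], [p, r] => L3 d p r
  | [d], [p, r, s] => L4 d p r s
  | _, _ => False

/-- The complete list of unavoidable pairs, in terms of the two sequences of gaps. -/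
def Listed (D E : List ℕ) : Prop := D = [] ∨ E = [] ∨ Half D E ∨ Half E D

/-- The pattern with given gaps. -/
def pat : List ℕ → List ℤ
  | [] => [0]
  | g :: gs => 0 :: (pat gs).map (fun t => t + (g : ℤ))

theorem offs_eq (m : List ℕ) : offs m = pat (m.map (· + 1)) := by
  induction m with
  | nil => rfl
  | cons a m ih =>
    simp only [offs, pat, List.map_cons, ih]
    congr 1

theorem zero_mem_pat (D : List ℕ) : (0 : ℤ) ∈ pat D := by
  cases D <;> simp [pat]

theorem pat1 (d : ℕ) : pat [d] = [0, (d : ℤ)] := by simp [pat]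

theorem pat2 (p r : ℕ) : pat [p, r] = [0, (p : ℤ), (p : ℤ) + r] := by
  simp [pat, add_comm]

theorem pat3 (p r s : ℕ) : pat [p, r, s] = [0, (p : ℤ), (p : ℤ) + r, (p : ℤ) + r + s] := by
  simp [pat]
  constructor <;> ring

theorem mem_pat_cons {g : ℕ} {D : List ℕ} {t : ℤ} (h : t ∈ pat D) :
    t + (g : ℤ) ∈ pat (g :: D) := by
  simp only [pat, List.mem_cons, List.mem_map]
  exact Or.inr ⟨t, h, rfl⟩

theorem not_avoid_nil (E : List ℤ) : ¬ Avoid [0] E := by
  rintro ⟨w, h1, h2⟩
  have h3 : ∀ x, w x = false := fun x => by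
    obtain ⟨t, ht, h⟩ := h1 x
    simp only [List.mem_cons, List.not_mem_nil, or_false] at ht
    rwa [ht, add_zero] at h
  obtain ⟨t, -, h⟩ := h2 0
  rw [h3] at h
  exact absurd h (by decide)

theorem main2 {d p : ℕ} (hd : 0 < d) (hp : 0 < p) :
    ¬ Avoid [0, (d : ℤ)] [0, (p : ℤ)] ↔ padicValNat 2 d ≠ padicValNat 2 p := by
  constructor
  · exact fun h h' => h (avoid_of_eq hd hp h')
  · intro h
    exact un1 d p (by exact_mod_cast hd.ne') (by exact_mod_cast hp.ne')
      (by simpa only [padicValInt.of_nat] using h)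

theorem main3 {d p r : ℕ} (hd : 0 < d) (hp : 0 < p) (hr : 0 < r) :
    ¬ Avoid [0, (d : ℤ)] [0, (p : ℤ), (p : ℤ) + r] ↔ L3 d p r := by
  constructor
  · intro h
    by_contra hc
    exact h (avoid_of_not_L3 caseE caseO hd hp hr hc)
  · exact not_avoid_of_L3 un2 un3 sporadic hd hp hr

/-- If `[0,d]`, `P` is unavoidable, every sub-pattern `u, u + p, u + p + r` of `P` is in `L3`. -/
theorem sub3 {d : ℕ} {P : List ℤ} (h : ¬ Avoid [0, (d : ℤ)] P) (hd : 0 < d) {u : ℤ} {p r : ℕ}
    (hp : 0 < p) (hr : 0 < r) (h0 : u ∈ P) (h1 : u + p ∈ P) (h2 : u + p + r ∈ P) : L3 d p r := by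
  rw [← main3 hd hp hr]
  intro h'
  apply h
  refine (h'.shift 0 u).mono ?_ ?_
  · intro t ht
    simpa using ht
  · intro t ht
    simp only [List.map_cons, List.map_nil, List.mem_cons, List.not_mem_nil, or_false] at ht
    rcases ht with rfl | rfl | rfl
    · rwa [zero_add]
    · rwa [add_comm]
    · have e : (p : ℤ) + r + u = u + p + r := by ring
      rwa [e]

theorem main4 {d p r s : ℕ} (hd : 0 < d) (hp : 0 < p) (hr : 0 < r) (hs : 0 < s) :
    ¬ Avoid [0, (d : ℤ)] [0, (p : ℤ), (p : ℤ) + r, (p : ℤ) + r + s] ↔ L4 d p r s := by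
  constructor
  · intro h
    refine r13 hd hp hr hs (sub3 h hd hp hr (u := 0) (by simp) (by simp) (by simp))
      (sub3 h hd hr hs (u := p) (by simp) (by simp) (by simp))
      (sub3 h hd (by omega) hs (u := 0) (by simp) (by simp) (by simp))
      (sub3 h hd hp (by omega) (u := 0) (by simp) (by simp) (by simp [add_assoc]))
  · rintro ⟨e, j, he, hj, h1, h2, h3⟩
    have h5 := un5 (j : ℤ) (e : ℤ) (by exact_mod_cast hj) (by exact_mod_cast he)
    have e1 : (d : ℤ) = 2 * j * e := by rw [h1]; push_cast; ring
    have h6 : 4 * e ≤ d := by rw [h1]; nlinarith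
    rcases h3 with ⟨h3, h4⟩ | ⟨h3, h4⟩
    · have e2 : (p : ℤ) = 2 * j * e + e := by omega
      have e3 : (p : ℤ) + r = 2 * j * e + 2 * e := by omega
      have e4 : (p : ℤ) + r + s = 2 * (2 * j * e) := by omega
      rw [e4, e3, e2, e1]
      exact h5.1
    · have e2 : (p : ℤ) = 2 * j * e - 2 * e := by omega
      have e3 : (p : ℤ) + r = 2 * j * e - e := by omega
      have e4 : (p : ℤ) + r + s = 2 * (2 * j * e) := by omega
      rw [e4, e3, e2, e1]
      exact h5.2

/-- One gap against at least four gaps: avoidable. -/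
theorem long1 {d p r s t : ℕ} (hd : 0 < d) (hp : 0 < p) (hr : 0 < r) (hs : 0 < s) (ht : 0 < t)
    (E : List ℕ) : Avoid (pat [d]) (pat (p :: r :: s :: t :: E)) := by
  by_contra hc
  rw [pat1] at hc
  have m0 := zero_mem_pat (p :: r :: s :: t :: E)
  have m1 : (p : ℤ) ∈ pat (p :: r :: s :: t :: E) := by
    simpa using mem_pat_cons (g := p) (zero_mem_pat (r :: s :: t :: E))
  have m2 : (r : ℤ) + p ∈ pat (p :: r :: s :: t :: E) := by
    simpa using mem_pat_cons (g := p) (mem_pat_cons (g := r) (zero_mem_pat (s :: t :: E)))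
  have m3 : (s : ℤ) + r + p ∈ pat (p :: r :: s :: t :: E) := by
    simpa using mem_pat_cons (g := p) (mem_pat_cons (g := r)
      (mem_pat_cons (g := s) (zero_mem_pat (t :: E))))
  have m4 : (t : ℤ) + s + r + p ∈ pat (p :: r :: s :: t :: E) := by
    simpa using mem_pat_cons (g := p) (mem_pat_cons (g := r)
      (mem_pat_cons (g := s) (mem_pat_cons (g := t) (zero_mem_pat E))))
  have key : ∀ s' : ℕ, 0 < s' → ((s' : ℤ) + r + p) ∈ pat (p :: r :: s :: t :: E) → L4 d p r s' := by
    intro s' hs' hm
    rw [← main4 hd hp hr hs']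
    intro h
    apply hc
    refine h.mono (fun x hx => hx) ?_
    intro x hx
    simp only [List.mem_cons, List.not_mem_nil, or_false] at hx
    rcases hx with rfl | rfl | rfl | rfl
    · exact m0
    · exact m1
    · rwa [add_comm]
    · have e : (p : ℤ) + r + s' = s' + r + p := by ring
      rwa [e]
  have h1 := L4_span (key s hs m3)
  have h2 := L4_span (key (s + t) (by omega) (by
    have e : ((s + t : ℕ) : ℤ) + r + p = t + s + r + p := by push_cast; ring
    rwa [e]))
  omega

/-- At least two gaps against at least two gaps: avoidable. -/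
theorem long2 {a b p r : ℕ} (ha : 0 < a) (hb : 0 < b) (hp : 0 < p) (hr : 0 < r)
    (D E : List ℕ) : Avoid (pat (a :: b :: D)) (pat (p :: r :: E)) := by
  by_contra hc
  have mem2 : ∀ (a b : ℕ) (D : List ℕ), (0 : ℤ) ∈ pat (a :: b :: D) ∧
      (a : ℤ) ∈ pat (a :: b :: D) ∧ (a : ℤ) + b ∈ pat (a :: b :: D) := by
    intro a b D
    refine ⟨zero_mem_pat _, ?_, ?_⟩
    · simpa using mem_pat_cons (g := a) (zero_mem_pat (b :: D))
    · have : (b : ℤ) + a ∈ pat (a :: b :: D) := by
        simpa using mem_pat_cons (g := a) (mem_pat_cons (g := b) (zero_mem_pat D))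
      rwa [add_comm]
  obtain ⟨q0, q1, q2⟩ := mem2 a b D
  obtain ⟨p0, p1, p2⟩ := mem2 p r E
  -- a pair of `Q` at distance `c`
  have main : ∀ (a b : ℕ) (D : List ℕ) (p r : ℕ) (E : List ℕ), 0 < p → 0 < r →
      ¬ Avoid (pat (a :: b :: D)) (pat (p :: r :: E)) → ∀ (c : ℕ) (u : ℤ), 0 < c →
      u ∈ pat (a :: b :: D) → u + c ∈ pat (a :: b :: D) → L3 c p r := by
    intro a b D p r E hp hr hc c u hc0 h0 h1
    rw [← main3 hc0 hp hr]
    intro h
    apply hc
    refine (h.shift u 0).mono ?_ ?_
    · intro t ht
      simp only [List.map_cons, List.map_nil, List.mem_cons, List.not_mem_nil, or_false] at ht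
      rcases ht with rfl | rfl
      · rwa [zero_add]
      · rwa [add_comm]
    · intro t ht
      obtain ⟨p0, p1, p2⟩ := mem2 p r E
      simp only [List.map_cons, List.map_nil, List.mem_cons, List.not_mem_nil, or_false,
        add_zero] at ht
      rcases ht with rfl | rfl | rfl
      · exact p0
      · exact p1
      · exact p2
  have hc' : ¬ Avoid (pat (p :: r :: E)) (pat (a :: b :: D)) := fun h => hc h.swap
  have k1 := main a b D p r E hp hr hc a 0 ha q0 (by rwa [zero_add])
  have k2 := main a b D p r E hp hr hc b a hb q1 q2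
  have k3 := main a b D p r E hp hr hc (a + b) 0 (by omega) q0 (by
    rw [zero_add]; push_cast; exact q2)
  have k4 := main p r E a b D ha hb hc' p 0 hp p0 (by rwa [zero_add])
  have k5 := main p r E a b D ha hb hc' r p hr p1 p2
  have k6 := main p r E a b D ha hb hc' (p + r) 0 (by omega) p0 (by
    rw [zero_add]; push_cast; exact p2)
  rcases lt_trichotomy (p + r) (a + b) with h | h | h
  · exact r22_aux ha hb hp hr h k3 k6 k1 k2
  · -- equal spans
    have hv : padicValNat 2 (a + b) ≠ padicValNat 2 (p + r) := by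
      rw [← main2 (by omega) (by omega)]
      intro h
      apply hc
      refine h.mono ?_ ?_
      · intro t ht
        simp only [List.mem_cons, List.not_mem_nil, or_false] at ht
        rcases ht with rfl | rfl
        · exact q0
        · push_cast; exact q2
      · intro t ht
        simp only [List.mem_cons, List.not_mem_nil, or_false] at ht
        rcases ht with rfl | rfl
        · exact p0
        · push_cast; exact p2
    exact hv (by rw [h])
  · exact r22_aux hp hr ha hb h k6 k3 k4 k5

theorem halfEmpty (E : List ℕ) : ¬ Half [] E := by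
  cases E <;> simp [Half]

/-- The classification for patterns. -/
theorem main (D E : List ℕ) (hD : ∀ g ∈ D, 0 < g) (hE : ∀ g ∈ E, 0 < g) :
    ¬ Avoid (pat D) (pat E) ↔ Listed D E := by
  have one : ∀ (d : ℕ) (E : List ℕ), 0 < d → (∀ g ∈ E, 0 < g) → E ≠ [] →
      (¬ Avoid (pat [d]) (pat E) ↔ Half [d] E) := by
    intro d E hd hE hE0
    match E, hE, hE0 with
    | [], _, h => exact absurd rfl h
    | [p], hE, _ =>
      have hp : 0 < p := hE p (by simp)
      rw [pat1, pat1, main2 hd hp, Half]
    | [p, r], hE, _ =>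
      rw [pat1, pat2, main3 hd (hE p (by simp)) (hE r (by simp)), Half]
    | [p, r, s], hE, _ =>
      rw [pat1, pat3, main4 hd (hE p (by simp)) (hE r (by simp)) (hE s (by simp)), Half]
    | p :: r :: s :: t :: E, hE, _ =>
      have h := long1 hd (hE p (by simp)) (hE r (by simp)) (hE s (by simp)) (hE t (by simp)) E
      constructor
      · exact fun h' => absurd h h'
      · intro h'
        exact absurd h' (by simp [Half])
  have half_long : ∀ (a b : ℕ) (D E : List ℕ), ¬ Half (a :: b :: D) E := by
    intro a b D E h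
    simp [Half] at h
  match D, E with
  | [], E => simp only [pat, Listed, true_or, iff_true]; exact not_avoid_nil _
  | D, [] =>
    simp only [pat, Listed, true_or, or_true, iff_true]
    exact fun h => not_avoid_nil _ h.swap
  | [d], e :: E =>
    have h1 := one d (e :: E) (hD d (by simp)) hE (by simp)
    rw [h1]
    constructor
    · exact fun h => Or.inr (Or.inr (Or.inl h))
    · rintro (h | h | h | h)
      · exact absurd h (by simp)
      · exact absurd h (by simp)
      · exact h
      · cases E with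
        | nil =>
          simp only [Half] at h ⊢
          exact h.symm
        | cons e' E => exact absurd h (half_long _ _ _ _)
  | d :: d' :: D, [e] =>
    have h1 := one e (d :: d' :: D) (hE e (by simp)) hD (by simp)
    have h2 : ¬ Avoid (pat (d :: d' :: D)) (pat [e]) ↔ ¬ Avoid (pat [e]) (pat (d :: d' :: D)) :=
      not_congr ⟨Avoid.swap, Avoid.swap⟩
    rw [h2, h1]
    constructor
    · exact fun h => Or.inr (Or.inr (Or.inr h))
    · rintro (h | h | h | h)
      · exact absurd h (by simp)
      · exact absurd h (by simp)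
      · exact absurd h (half_long _ _ _ _)
      · exact h
  | d :: d' :: D, e :: e' :: E =>
    have h := long2 (hD d (by simp)) (hD d' (by simp)) (hE e (by simp)) (hE e' (by simp)) D E
    constructor
    · exact fun h' => absurd h h'
    · rintro (h | h | h | h)
      · exact absurd h (by simp)
      · exact absurd h (by simp)
      · exact absurd h (half_long _ _ _ _)
      · exact absurd h (half_long _ _ _ _)

theorem final (m n : List ℕ) : Unavoidable {spaced true m, spaced false n} ↔
    Listed (m.map (· + 1)) (n.map (· + 1)) := by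
  rw [wordsIff, offs_eq, offs_eq]
  refine main _ _ ?_ ?_
  · intro g hg
    obtain ⟨x, -, rfl⟩ := List.mem_map.1 hg
    omega
  · intro g hg
    obtain ⟨x, -, rfl⟩ := List.mem_map.1 hg
    omega

end NH21.Unav
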