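import Pool.Agent.NH21.Unav.Prim

namespace NH21.Unav

/-! ### The patterns with one gap against two gaps -/

theorem Avoid.rev {d p r : ℤ} (h : Avoid [0, d] [0, p, p + r]) : Avoid [0, d] [0, r, r + p] := by
  refine ((h.neg.shift d (p + r))).mono ?_ ?_
  · intro t ht
    simp only [List.map_cons, List.map_nil, List.mem_cons, List.not_mem_nil, or_false] at ht ⊢
    omega
  · intro t ht
    simp only [List.map_cons, List.map_nil, List.mem_cons, List.not_mem_nil, or_false] at ht ⊢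
    omega

theorem v2_odd {n : ℕ} (h : Odd (n : ℤ)) : padicValNat 2 n = 0 := by
  refine padicValNat.eq_zero_of_not_dvd ?_
  have : Odd n := by exact_mod_cast h
  intro h2
  exact (Nat.not_even_iff_odd.2 this) (even_iff_two_dvd.2 h2)

theorem v2_even {n : ℕ} (h0 : 0 < n) (h : Even (n : ℤ)) : 0 < padicValNat 2 n := by
  have : 2 ∣ n := even_iff_two_dvd.1 (by exact_mod_cast h)
  exact one_le_padicValNat_of_dvd h0.ne' this

theorem exc_L3 {g d p r : ℕ} (hg : 0 < g) (hd : 0 < d) (hp : 0 < p) (hr : 0 < r)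
    (h : Exc d p r) : L3 (g * d) (g * p) (g * r) := by
  have vm : ∀ n : ℕ, 0 < n → padicValNat 2 (g * n) = padicValNat 2 g + padicValNat 2 n :=
    fun n hn => padicValNat.mul hg.ne' hn.ne'
  unfold L3
  rw [vm d hd, vm p hp, vm r hr]
  unfold Exc at h
  rcases h with ⟨h1, h2, h3⟩ | ⟨h1, h2, h3⟩ | ⟨h1, h2, h3⟩ | ⟨h1, h2, h3⟩ | ⟨h1, h2⟩ | ⟨h1, h2⟩
  · have e1 := v2_odd h2
    have e2 := v2_even hd h1
    have e3 : r = p + d := by omega
    exact Or.inl ⟨by rw [e3]; ring, by omega⟩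
  · have e1 := v2_odd h2
    have e2 := v2_even hd h1
    have e3 : p = r + d := by omega
    exact Or.inr (Or.inl ⟨by rw [e3]; ring, by omega⟩)
  · have e1 := v2_odd h2
    have e2 := v2_even hd h1
    have e3 : d = 2 * p + r := by omega
    exact Or.inr (Or.inr (Or.inl ⟨by rw [e3]; ring, by omega⟩))
  · have e1 := v2_odd h2
    have e2 := v2_even hd h1
    have e3 : d = p + 2 * r := by omega
    exact Or.inr (Or.inr (Or.inr (Or.inl ⟨by rw [e3]; ring, by omega⟩)))
  · refine Or.inr (Or.inr (Or.inr (Or.inr (Or.inl ⟨g, hg, ?_, ⟨d, rfl⟩, ?_⟩))))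
    · have : 1 < d := by exact_mod_cast h1
      nlinarith
    · obtain ⟨d', hd'⟩ : ∃ d', d = d' + 1 := ⟨d - 1, by omega⟩
      rcases h2 with ⟨h2, h3⟩ | ⟨h2, h3⟩
      · left
        have e1 : p = d' := by omega
        have e2 : r = d + 1 := by omega
        refine ⟨?_, ?_⟩
        · rw [e1, hd', mul_add, mul_one]; omega
        · rw [e2]; ring
      · right
        have e1 : r = d' := by omega
        have e2 : p = d + 1 := by omega
        refine ⟨?_, ?_⟩
        · rw [e2]; ring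
        · rw [e1, hd', mul_add, mul_one]; omega
  · refine Or.inr (Or.inr (Or.inr (Or.inr (Or.inr ⟨g, hg, ?_, ?_⟩))))
    · have : d = 7 := by omega
      rw [this]; ring
    · rcases h2 with ⟨h2, h3⟩ | ⟨h2, h3⟩
      · left
        have e1 : p = 2 := by omega
        have e2 : r = 4 := by omega
        exact ⟨by rw [e1]; ring, by rw [e2]; ring⟩
      · right
        have e1 : p = 4 := by omega
        have e2 : r = 2 := by omega
        exact ⟨by rw [e1]; ring, by rw [e2]; ring⟩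

theorem avoid_of_not_L3 (hE : CaseE) (hO : CaseO) {d p r : ℕ} (hd : 0 < d) (hp : 0 < p)
    (hr : 0 < r) (h : ¬ L3 d p r) : Avoid [0, (d : ℤ)] [0, (p : ℤ), (p : ℤ) + r] := by
  obtain ⟨g, hg⟩ : ∃ g : ℕ, g = Nat.gcd d (Nat.gcd p r) := ⟨_, rfl⟩
  have hg0 : 0 < g := by rw [hg]; exact Nat.gcd_pos_of_pos_left _ hd
  obtain ⟨d', hd'⟩ : g ∣ d := by rw [hg]; exact Nat.gcd_dvd_left _ _
  obtain ⟨p', hp'⟩ : g ∣ p := by rw [hg]; exact (Nat.gcd_dvd_right _ _).trans (Nat.gcd_dvd_left _ _)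
  obtain ⟨r', hr'⟩ : g ∣ r := by rw [hg]; exact (Nat.gcd_dvd_right _ _).trans (Nat.gcd_dvd_right _ _)
  have hd0 : 0 < d' := Nat.pos_of_ne_zero (fun h0 => by rw [h0, mul_zero] at hd'; omega)
  have hp0 : 0 < p' := Nat.pos_of_ne_zero (fun h0 => by rw [h0, mul_zero] at hp'; omega)
  have hr0 : 0 < r' := Nat.pos_of_ne_zero (fun h0 => by rw [h0, mul_zero] at hr'; omega)
  have hprim : ∀ q : ℤ, 0 < q → q ∣ (d' : ℤ) → q ∣ (p' : ℤ) → q ∣ (r' : ℤ) → q = 1 := by
    intro q hq h1 h2 h3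
    lift q to ℕ using hq.le
    have h1' : q ∣ d' := by exact_mod_cast h1
    have h2' : q ∣ p' := by exact_mod_cast h2
    have h3' : q ∣ r' := by exact_mod_cast h3
    have h4 : g * q ∣ g := by
      conv_rhs => rw [hg]
      refine Nat.dvd_gcd ?_ (Nat.dvd_gcd ?_ ?_)
      · rw [hd']; exact mul_dvd_mul_left _ h1'
      · rw [hp']; exact mul_dvd_mul_left _ h2'
      · rw [hr']; exact mul_dvd_mul_left _ h3'
    have h5 := Nat.le_of_dvd hg0 h4
    have h6 : 0 < q := by exact_mod_cast hq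
    have : q = 1 := by nlinarith
    exact_mod_cast this
  rcases prim hE hO (d := (d' : ℤ)) (p := (p' : ℤ)) (r := (r' : ℤ)) (by exact_mod_cast hd0)
    (by exact_mod_cast hp0) (by exact_mod_cast hr0) hprim with h1 | h1
  · have h2 := rotAvoid (h1.scale (g := (g : ℤ)) (by exact_mod_cast hg0))
    rw [hd', hp', hr']
    push_cast
    exact h2
  · exfalso
    apply h
    rw [hd', hp', hr']
    exact exc_L3 hg0 hd0 hp0 hr0 h1

theorem L3_symm {d p r : ℕ} (h : L3 d p r) : L3 d r p := by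
  unfold L3 at *
  rcases h with h | h | ⟨h, h'⟩ | ⟨h, h'⟩ | ⟨e, h1, h2, h3, h4⟩ | ⟨e, h1, h2, h3⟩
  · exact Or.inr (Or.inl h)
  · exact Or.inl h
  · exact Or.inr (Or.inr (Or.inr (Or.inl ⟨by omega, h'⟩)))
  · exact Or.inr (Or.inr (Or.inl ⟨by omega, h'⟩))
  · exact Or.inr (Or.inr (Or.inr (Or.inr (Or.inl ⟨e, h1, h2, h3, by omega⟩))))
  · exact Or.inr (Or.inr (Or.inr (Or.inr (Or.inr ⟨e, h1, h2, by omega⟩))))

theorem not_avoid_of_L3 (h2 : Un2) (h3 : Un3) (hS : Sporadic) {d p r : ℕ} (hd : 0 < d)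
    (hp : 0 < p) (hr : 0 < r) (h : L3 d p r) :
    ¬ Avoid [0, (d : ℤ)] [0, (p : ℤ), (p : ℤ) + r] := by
  have typeA : ∀ p r : ℕ, 0 < p → r = p + d → padicValNat 2 p < padicValNat 2 d →
      ¬ Avoid [0, (d : ℤ)] [0, (p : ℤ), (p : ℤ) + r] := by
    intro p r hp e1 e2 h
    refine h2 d p (by exact_mod_cast hd) (by exact_mod_cast hp.ne')
      (by simpa only [padicValInt.of_nat] using e2) ?_
    have : (2 * (p : ℤ) + d) = (p : ℤ) + r := by rw [e1]; push_cast; ring
    rw [this]; exact h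
  have typeB : ∀ p r : ℕ, 0 < p → d = 2 * p + r → padicValNat 2 p < padicValNat 2 d →
      ¬ Avoid [0, (d : ℤ)] [0, (p : ℤ), (p : ℤ) + r] := by
    intro p r hp e1 e2 h
    refine h2 d (-p) (by exact_mod_cast hd) (by
      have : (p : ℤ) ≠ 0 := by exact_mod_cast hp.ne'
      exact neg_ne_zero.2 this)
      (by
        have : padicValInt 2 (-(p : ℤ)) = padicValNat 2 p := by
          rw [padicValInt, Int.natAbs_neg, Int.natAbs_natCast]
        rw [this]; simpa only [padicValInt.of_nat] using e2) ?_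
    refine (h.shift 0 (-p)).mono ?_ ?_
    · intro t ht
      simp only [List.map_cons, List.map_nil, List.mem_cons, List.not_mem_nil, or_false] at ht ⊢
      omega
    · intro t ht
      simp only [List.map_cons, List.map_nil, List.mem_cons, List.not_mem_nil, or_false] at ht ⊢
      omega
  rcases h with ⟨e1, e2⟩ | ⟨e1, e2⟩ | ⟨e1, e2⟩ | ⟨e1, e2⟩ | ⟨e, h4, h5, h6, h7⟩ | ⟨e, h4, h5, h6⟩
  · exact typeA p r hp e1 e2
  · exact fun h => typeA r p hr e1 e2 h.rev
  · exact typeB p r hp e1 e2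
  · exact fun h => typeB r p hr (by omega) e2 h.rev
  · have h := h3 d e (by exact_mod_cast h4) (by exact_mod_cast h5) (by exact_mod_cast h6)
    rcases h7 with ⟨h7, h8⟩ | ⟨h7, h8⟩
    · have e1 : (p : ℤ) = d - e := by omega
      have e2 : (p : ℤ) + r = 2 * d := by omega
      rw [e2, e1]; exact h.1
    · have e1 : (p : ℤ) = d + e := by omega
      have e2 : (p : ℤ) + r = 2 * d := by omega
      rw [e2, e1]; exact h.2
  · have h := hS e (by exact_mod_cast h4)
    have e0 : (d : ℤ) = 7 * e := by omega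
    rcases h6 with ⟨h7, h8⟩ | ⟨h7, h8⟩
    · have e1 : (p : ℤ) = 2 * e := by omega
      have e2 : (p : ℤ) + r = 6 * e := by omega
      rw [e0, e2, e1]; exact h.1
    · have e1 : (p : ℤ) = 4 * e := by omega
      have e2 : (p : ℤ) + r = 6 * e := by omega
      rw [e0, e2, e1]; exact h.2

/-! ### One gap against one gap -/

theorem exists_pow_odd {n : ℕ} (hn : 0 < n) : ∃ k : ℕ, Odd k ∧ n = 2 ^ padicValNat 2 n * k := by
  obtain ⟨k, hk⟩ := @pow_padicValNat_dvd 2 n
  refine ⟨k, ?_, hk⟩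
  by_contra hc
  rw [Nat.not_odd_iff_even] at hc
  obtain ⟨j, hj⟩ := hc
  have h1 : 2 ^ (padicValNat 2 n + 1) ∣ n := ⟨j, by
    conv_lhs => rw [hk, hj]
    rw [pow_succ]; ring⟩
  exact pow_succ_padicValNat_not_dvd hn.ne' h1

theorem avoid_of_eq {d p : ℕ} (hd : 0 < d) (hp : 0 < p)
    (h : padicValNat 2 d = padicValNat 2 p) : Avoid [0, (d : ℤ)] [0, (p : ℤ)] := by
  obtain ⟨a, ha, ha'⟩ := exists_pow_odd hd
  obtain ⟨b, hb, hb'⟩ := exists_pow_odd hp
  rw [← h] at hb'
  obtain ⟨M, hM⟩ : ∃ M : ℤ, M = 2 ^ padicValNat 2 d := ⟨_, rfl⟩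
  have hM0 : M ≠ 0 := by rw [hM]; positivity
  have e1 : (d : ℤ) = M * a := by rw [hM]; exact_mod_cast ha'
  have e2 : (p : ℤ) = M * b := by rw [hM]; exact_mod_cast hb'
  obtain ⟨a', ha2⟩ := ha
  obtain ⟨b', hb2⟩ := hb
  have key : ∀ x t : ℤ, (x + M * t) / M = x / M + t := fun x t => Int.add_mul_ediv_left x t hM0
  refine ⟨fun x => decide ((x / M) % 2 = 0), fun x => ?_, fun x => ?_⟩
  · by_cases hx : (x / M) % 2 = 0
    · refine ⟨d, by simp, ?_⟩
      simp only [decide_eq_false_iff_not]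
      rw [e1, key]; omega
    · exact ⟨0, by simp, by simp only [decide_eq_false_iff_not, add_zero]; exact hx⟩
  · by_cases hx : (x / M) % 2 = 0
    · exact ⟨0, by simp, by simp only [decide_eq_true_eq, add_zero]; exact hx⟩
    · refine ⟨p, by simp, ?_⟩
      simp only [decide_eq_true_eq]
      rw [e2, key]; omega

end NH21.Unav
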