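import Pool.Agent.NH21.Unav.Rot

namespace NH21.Unav

theorem coprime_of {a d : ℤ} (hd : 0 < d) (h : ∀ g : ℤ, 0 < g → g ∣ d → g ∣ a → g = 1) :
    IsCoprime a d := by
  rw [Int.isCoprime_iff_gcd_eq_one]
  have h1 : (0 : ℤ) < (Int.gcd a d : ℤ) := by
    have : 0 < Int.gcd a d := Int.gcd_pos_of_ne_zero_right a hd.ne'
    exact_mod_cast this
  have := h _ h1 (Int.gcd_dvd_right _ _) (Int.gcd_dvd_left _ _)
  exact_mod_cast this

theorem unitE {a d t : ℤ} (hd : 0 < d) (ha : Odd a) (ht : Odd t)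
    (h : ∀ g : ℤ, 0 < g → g ∣ d → g ∣ a → g = 1) : ∃ u : ℤ, Odd u ∧ 2 * d ∣ a * u - t := by
  have h1 : IsCoprime a 2 := (Int.isCoprime_iff_gcd_eq_one.2 (by
    rw [Int.gcd_comm]
    exact (Int.isCoprime_iff_gcd_eq_one.1 (Int.isCoprime_two_left.2 ha))))
  have h2 : IsCoprime a (2 * d) := h1.mul_right (coprime_of hd h)
  obtain ⟨x, y, hxy⟩ := h2
  refine ⟨x * t, ?_, ⟨-y * t, by linear_combination t * hxy⟩⟩
  have hx : Odd x := by
    by_contra hx
    rw [Int.not_odd_iff_even] at hx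
    obtain ⟨x', hx⟩ := hx
    have : Even (1 : ℤ) := ⟨x' * a + y * d, by rw [← hxy, hx]; ring⟩
    exact absurd this (by decide)
  exact hx.mul ht

theorem unitO {b d t : ℤ} (hd : 0 < d) (hdo : Odd d)
    (h : ∀ g : ℤ, 0 < g → g ∣ d → g ∣ b → g = 1) : ∃ u : ℤ, Odd u ∧ 2 * d ∣ (2 * b) * u - 2 * t := by
  obtain ⟨x, y, hxy⟩ := coprime_of hd h
  rcases Int.even_or_odd (x * t) with hx | hx
  · refine ⟨x * t + d, hx.add_odd hdo, ⟨b - y * t, by linear_combination 2 * t * hxy⟩⟩
  · exact ⟨x * t, hx, ⟨-y * t, by linear_combination 2 * t * hxy⟩⟩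

/-- The primitive exceptional triples. -/
def Exc (d p r : ℤ) : Prop :=
  (Even d ∧ Odd p ∧ r = p + d) ∨ (Even d ∧ Odd r ∧ p = r + d) ∨
  (Even d ∧ Odd p ∧ d = 2 * p + r) ∨ (Even d ∧ Odd r ∧ d = p + 2 * r) ∨
  (1 < d ∧ (p = d - 1 ∧ r = d + 1 ∨ p = d + 1 ∧ r = d - 1)) ∨
  (d = 7 ∧ (p = 2 ∧ r = 4 ∨ p = 4 ∧ r = 2))

theorem Exc.symm {d p r : ℤ} (h : Exc d p r) : Exc d r p := by
  unfold Exc at *
  rcases h with ⟨h1, h2, h3⟩ | ⟨h1, h2, h3⟩ | ⟨h1, h2, h3⟩ | ⟨h1, h2, h3⟩ | ⟨h1, h2⟩ | ⟨h1, h2⟩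
  · exact Or.inr (Or.inl ⟨h1, h2, h3⟩)
  · exact Or.inl ⟨h1, h2, h3⟩
  · exact Or.inr (Or.inr (Or.inr (Or.inl ⟨h1, h2, by omega⟩)))
  · exact Or.inr (Or.inr (Or.inl ⟨h1, h2, by omega⟩))
  · exact Or.inr (Or.inr (Or.inr (Or.inr (Or.inl ⟨h1, by omega⟩))))
  · exact Or.inr (Or.inr (Or.inr (Or.inr (Or.inr ⟨h1, by omega⟩))))

theorem rot_symm {d p r : ℤ} (h : Rot d r p (-(r + p))) : Rot d p r (-(p + r)) := by
  rw [add_comm p r]; exact h.swap12

/-- `q = p + r = 2dk`, `d` even, `p ≤ r`. -/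
theorem caseq_even {d p r k : ℤ} (hd : 0 < d) (hp : 0 < p) (hde : Even d) (hpo : Odd p)
    (hpr : p ≤ r) (hk : 0 < k) (hq : p + r = 2 * d * k)
    (hg : ∀ g : ℤ, 0 < g → g ∣ d → g ∣ p → g = 1) : Rot d p r (-(p + r)) ∨ Exc d p r := by
  by_cases hT : 2 * k + 1 ≤ -p + (2 * k - 1) * d
  · left
    obtain ⟨u, hu, hau⟩ := unitE (a := -p) (t := d - 1) hd hpo.neg (hde.sub_odd odd_one)
      (fun g h1 h2 h3 => hg g h1 h2 ((dvd_neg).1 h3))
    have := (rotF0 hd (by omega) hT hu hau).neg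
    have e1 : -(-(2 * d * k + -p)) = r := by rw [← hq]; ring
    rw [e1, neg_neg] at this
    rw [hq]
    exact this.swap12.swap23
  · right
    obtain ⟨d', hd'⟩ := hde
    obtain ⟨p', hp'⟩ := hpo
    have hpk : p ≤ d * k := by
      have : 2 * d * k = d * k + d * k := by ring
      omega
    -- small cases
    by_cases hk1 : k = 1
    · subst hk1
      have : p = d - 1 := by omega
      refine Or.inr (Or.inr (Or.inr (Or.inr (Or.inl ⟨by omega, Or.inl ⟨this, by omega⟩⟩))))
    · by_cases hd2 : d = 2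
      · subst hd2
        refine Or.inl ⟨⟨1, by norm_num⟩, ⟨p', hp'⟩, by omega⟩
      · exfalso
        have h4 : 4 ≤ d := by omega
        by_cases hk2 : k = 2
        · subst hk2
          omega
        · have hk3 : 3 ≤ k := by omega
          nlinarith

/-- `q = p + r = 2dk`, `d` odd, `p, r` even, `p ≤ r`. -/
theorem caseq_odd {d p r k a : ℤ} (hd : 3 ≤ d) (hdo : Odd d) (hpa : p = 2 * a)
    (hpr : p ≤ r) (hk : 0 < k) (hq : p + r = 2 * d * k)
    (hg : ∀ g : ℤ, 0 < g → g ∣ d → g ∣ a → g = 1) : Rot d p r (-(p + r)) ∨ Exc d p r := by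
  by_cases hT : 2 * k + 1 ≤ -p + (2 * k - 1) * d
  · left
    obtain ⟨d', hd'⟩ := hdo
    obtain ⟨u, hu, hau⟩ := unitO (b := -a) (d := d) (t := d') (by omega) ⟨d', hd'⟩
      (fun g h1 h2 h3 => hg g h1 h2 ((dvd_neg).1 h3))
    have hau2 : 2 * d ∣ -p * u - (d - 1) := by
      refine hau.trans (dvd_of_eq ?_)
      rw [hpa, hd']; ring
    have := (rotF0 (by omega) (by omega) hT hu hau2).neg.swap12.swap23
    have e1 : -(-(2 * d * k + -p)) = r := by rw [← hq]; ring
    rw [e1, neg_neg] at this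
    rw [hq]
    exact this
  · right
    obtain ⟨d', hd'⟩ := hdo
    have hpk : p ≤ d * k := by
      have : 2 * d * k = d * k + d * k := by ring
      omega
    by_cases hk1 : k = 1
    · subst hk1
      have : p = d - 1 := by omega
      refine Or.inr (Or.inr (Or.inr (Or.inr (Or.inl ⟨by omega, Or.inl ⟨this, by omega⟩⟩))))
    · exfalso
      by_cases hk2 : k = 2
      · subst hk2
        by_cases hd3 : d = 3
        · subst hd3
          have : a = 3 := by omega
          have := hg 3 (by norm_num) (dvd_refl 3) (by rw [this])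
          omega
        · omega
      · by_cases hk3 : k = 3
        · subst hk3
          omega
        · have hk4 : 4 ≤ k := by omega
          nlinarith

/-- `d` even, `p` odd, `r` even. -/
theorem evenOdd (hE : CaseE) {d p r : ℤ} (hd : 0 < d) (hp : 0 < p) (hr : 0 < r) (hde : Even d)
    (hpo : Odd p) (hre : Even r) (hg : ∀ g : ℤ, 0 < g → g ∣ d → g ∣ p → g ∣ r → g = 1) :
    Rot d p r (-(p + r)) ∨ Exc d p r := by
  have hd2 : 2 ≤ d := by obtain ⟨d', hd'⟩ := hde; omega
  have hr2 : 2 ≤ r := by obtain ⟨r', hr'⟩ := hre; omega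
  rcases hE d p (-(p + r)) hd2 hde hpo (hpo.add_even hre).neg
    (fun g h1 h2 h3 h4 => hg g h1 h2 h3 (by
      have := dvd_add ((dvd_neg).1 h4) (dvd_neg.2 h3)
      exact this.trans (dvd_of_eq (by ring)))) with h | h | h
  · left
    have e : -(p + -(p + r)) = r := by ring
    rw [e] at h
    exact h.swap23
  · left
    obtain ⟨k0, hk0⟩ := h
    obtain ⟨k, hk⟩ : ∃ k : ℤ, k = -k0 := ⟨_, rfl⟩
    have hrk : r = 2 * d * k := by rw [hk]; linarith
    have hk1 : 1 ≤ k := by
      by_contra hc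
      have : 2 * d * k ≤ 0 := by nlinarith
      omega
    obtain ⟨u, hu, hau⟩ := unitE (a := p) (t := d - 1) hd hpo (hde.sub_odd odd_one)
      (fun g h1 h2 h3 => hg g h1 h2 h3 (by rw [hrk]; exact (Dvd.dvd.mul_left h2 2).mul_right k))
    have := rotF0 hd hk1 (by nlinarith) hu hau
    rw [← hrk] at this
    exact rot_symm this
  · obtain ⟨t, ht⟩ := h
    obtain ⟨M, hM⟩ : ∃ M : ℤ, M = 2 * (-t - 1) + 1 := ⟨_, rfl⟩
    have hMd : 2 * p + r = M * d := by rw [hM]; linarith
    have hM0 : 1 ≤ M := by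
      by_contra hc
      have : M * d ≤ 0 := by nlinarith
      omega
    by_cases hM1 : M = 1
    · right
      exact Or.inr (Or.inr (Or.inl ⟨hde, hpo, by rw [hM1] at hMd; omega⟩))
    · left
      have hM3 : 3 ≤ M := by omega
      obtain ⟨u, hu, hau⟩ := unitE (a := -p) (t := 1) hd hpo.neg odd_one
        (fun g h1 h2 h3 => hg g h1 h2 (dvd_neg.1 h3) (by
          have h5 : r = M * d + 2 * (-p) := by linarith
          rw [h5]
          exact dvd_add (Dvd.dvd.mul_left h2 M) (Dvd.dvd.mul_left h3 2)))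
      have hT : M ≤ d * (M - 1) + -p := by
        by_cases hd4 : d = 2
        · subst hd4
          obtain ⟨p', hp'⟩ := hpo
          omega
        · have : 4 ≤ d := by obtain ⟨d', hd'⟩ := hde; omega
          nlinarith
      have := (rotF1 hd hM3 ⟨_, hM⟩ hT hu hau).neg.swap23
      have e1 : -(-p + M * d) = -(p + r) := by rw [← hMd]; ring
      have e2 : - -(2 * -p + M * d) = r := by rw [← hMd]; ring
      rw [e1, e2, neg_neg] at this
      exact this

/-- `d` even, `p`, `r` odd, `r - p` a positive odd multiple of `d`. -/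
theorem oddOdd1 {d p r m : ℤ} (hd : 0 < d) (hp : 0 < p) (hde : Even d)
    (hpo : Odd p) (hm : 0 < m) (hmo : Odd m) (hmd : r - p = m * d)
    (hg : ∀ g : ℤ, 0 < g → g ∣ d → g ∣ p → g ∣ r → g = 1) :
    Rot d p r (-(p + r)) ∨ Exc d p r := by
  have hd2 : 2 ≤ d := by obtain ⟨d', hd'⟩ := hde; omega
  by_cases hm1 : m = 1
  · right
    exact Or.inl ⟨hde, hpo, by rw [hm1] at hmd; omega⟩
  · left
    have hm3 : 3 ≤ m := by obtain ⟨m', hm'⟩ := hmo; omega
    obtain ⟨u, hu, hau⟩ := unitE (a := p) (t := 1) hd hpo odd_one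
        (fun g h1 h2 h3 => hg g h1 h2 h3 (by
          have h5 : r = m * d + p := by linarith
          rw [h5]
          exact dvd_add (Dvd.dvd.mul_left h2 m) h3))
    have := rotF1 hd hm3 hmo (by nlinarith) hu hau
    have e1 : p + m * d = r := by rw [← hmd]; ring
    have e2 : -(2 * p + m * d) = -(p + r) := by rw [← hmd]; ring
    rw [e1, e2] at this
    exact this

theorem evenq (hE : CaseE) {d p r : ℤ} (hd : 0 < d) (hp : 0 < p) (hr : 0 < r) (hde : Even d)
    (hpo : Odd p) (hro : Odd r) (hg : ∀ g : ℤ, 0 < g → g ∣ d → g ∣ p → g ∣ r → g = 1) :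
    Rot d p r (-(p + r)) ∨ Exc d p r := by
  have hd2 : 2 ≤ d := by obtain ⟨d', hd'⟩ := hde; omega
  rcases hE d p r hd2 hde hpo hro hg with h | h | h
  · exact Or.inl h
  · obtain ⟨k, hk⟩ := h
    have hk1 : 0 < k := by
      by_contra hc
      have : 2 * d * k ≤ 0 := by nlinarith
      omega
    have h2d : ∀ g : ℤ, g ∣ d → g ∣ 2 * d * k := fun g h => (Dvd.dvd.mul_left h 2).mul_right k
    rcases le_total p r with hpr | hpr
    · refine caseq_even hd hp hde hpo hpr hk1 hk (fun g h1 h2 h3 => hg g h1 h2 h3 ?_)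
      have h5 : r = 2 * d * k + -p := by linarith
      rw [h5]
      exact dvd_add (h2d g h2) (dvd_neg.2 h3)
    · rcases caseq_even hd hr hde hro hpr hk1 (by rw [add_comm]; exact hk)
        (fun g h1 h2 h3 => hg g h1 h2 (by
          have h5 : p = 2 * d * k + -r := by linarith
          rw [h5]
          exact dvd_add (h2d g h2) (dvd_neg.2 h3)) h3) with h | h
      · exact Or.inl (rot_symm h)
      · exact Or.inr h.symm
  · obtain ⟨t, ht⟩ := h
    rcases lt_or_ge t 0 with h0 | h0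
    · rcases oddOdd1 (m := 2 * (-t - 1) + 1) hd hr hde hro (by omega) ⟨_, rfl⟩ (r := p)
        (by linarith) (fun g h1 h2 h3 h4 => hg g h1 h2 h4 h3) with h | h
      · exact Or.inl (rot_symm h)
      · exact Or.inr h.symm
    · exact oddOdd1 (m := 2 * t + 1) hd hp hde hpo (by omega) ⟨_, rfl⟩ (by linarith) hg

/-- `d` odd, `p = 2a` with `d ∣ a`. -/
theorem oddF0 {d a r b : ℤ} (hd : 3 ≤ d) (ha : 0 < a) (hr : 0 < r) (hdo : Odd d) (hrb : r = 2 * b)
    (hda : d ∣ a) (hg : ∀ g : ℤ, 0 < g → g ∣ d → g ∣ a → g ∣ b → g = 1) :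
    Rot d (2 * a) r (-(2 * a + r)) := by
  obtain ⟨k, hk⟩ := hda
  have hk1 : 0 < k := by
    by_contra hc
    have : d * k ≤ 0 := by nlinarith
    omega
  obtain ⟨d', hd'⟩ := hdo
  obtain ⟨u, hu, hau⟩ := unitO (b := b) (d := d) (t := d') (by omega) ⟨d', hd'⟩
      (fun g h1 h2 h3 => hg g h1 h2 (by rw [hk]; exact h2.mul_right k) h3)
  have hau2 : 2 * d ∣ r * u - (d - 1) := by
    refine hau.trans (dvd_of_eq ?_)
    rw [hrb, hd']; ring
  have := rotF0 (by omega) (by omega) (by nlinarith) hu hau2 (k := k)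
  have e : 2 * a = 2 * d * k := by rw [hk]; ring
  rw [e]
  exact this

/-- `d = 7`, `b ≡ 2a mod 7`. -/
theorem seven {a b : ℤ} (ha : 0 < a) (hb : 0 < b) (h7 : ¬ (7 : ℤ) ∣ a) (h : (7 : ℤ) ∣ b - 2 * a) :
    Rot 7 (2 * a) (2 * b) (-(2 * a + 2 * b)) ∨ Exc 7 (2 * a) (2 * b) := by
  by_cases hC : 14 ≤ 2 * a + 2 * b
  · left
    obtain ⟨u, hu, hau⟩ := unitO (b := a) (d := 7) (t := 1) (by norm_num) (by decide)
      (fun g h1 h2 h3 => by
        have h4 : g ≤ 7 := Int.le_of_dvd (by norm_num) h2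
        interval_cases g <;> first | rfl | (exfalso; omega))
    refine rotF2 (u := u) (by omega) (by omega) hC hu ?_ ?_
    · exact (dvd_of_eq (by ring)).trans (hau.trans (dvd_of_eq (by ring)))
    · obtain ⟨v, hv⟩ := hau
      obtain ⟨t, ht⟩ := h
      exact ⟨2 * v + t * u, by linear_combination 2 * hv + 2 * u * ht⟩
  · have ha5 : a ≤ 5 := by omega
    have hb5 : b ≤ 5 := by omega
    interval_cases a <;> interval_cases b <;>
      first
      | (exfalso; omega)
      | (right; refine Or.inr (Or.inr (Or.inr (Or.inr (Or.inr ⟨rfl, ?_⟩)))); omega)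
      | (left; refine ⟨5, 4, 1, 2, 2, 3, ?_⟩; norm_num; done)
      | (left; refine ⟨3, 2, 1, 1, 1, 2, ?_⟩; norm_num; done)

theorem prim (hE : CaseE) (hO : CaseO) {d p r : ℤ} (hd : 0 < d) (hp : 0 < p) (hr : 0 < r)
    (hg : ∀ g : ℤ, 0 < g → g ∣ d → g ∣ p → g ∣ r → g = 1) :
    Rot d p r (-(p + r)) ∨ Exc d p r := by
  rcases Int.even_or_odd d with hde | hdo
  · rcases Int.even_or_odd p with hpe | hpo
    · rcases Int.even_or_odd r with hre | hro
      · exfalso
        have := hg 2 (by norm_num) hde.two_dvd hpe.two_dvd hre.two_dvd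
        omega
      · rcases evenOdd hE hd hr hp hde hro hpe (fun g h1 h2 h3 h4 => hg g h1 h2 h4 h3) with h | h
        · exact Or.inl (rot_symm h)
        · exact Or.inr h.symm
    · rcases Int.even_or_odd r with hre | hro
      · exact evenOdd hE hd hp hr hde hpo hre hg
      · exact evenq hE hd hp hr hde hpo hro hg
  · by_cases hpr : Odd p ∨ Odd r
    · exact Or.inl (rot_odd hdo hpr)
    · push Not at hpr
      rw [Int.not_odd_iff_even, Int.not_odd_iff_even] at hpr
      by_cases hd1 : d = 1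
      · subst hd1
        exact Or.inl (rot_one hp hr hpr.1 hpr.2)
      have hd3 : 3 ≤ d := by obtain ⟨d', hd'⟩ := hdo; omega
      obtain ⟨⟨a, ha⟩, ⟨b, hb⟩⟩ := hpr
      have ha2 : p = 2 * a := by omega
      have hb2 : r = 2 * b := by omega
      have hg' : ∀ g : ℤ, 0 < g → g ∣ d → g ∣ a → g ∣ b → g = 1 := fun g h1 h2 h3 h4 =>
        hg g h1 h2 (by rw [ha2]; exact Dvd.dvd.mul_left h3 2)
          (by rw [hb2]; exact Dvd.dvd.mul_left h4 2)
      rcases hO d a b hd3 hdo hg' with h | h | h | h | ⟨h7, h⟩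
      · left
        rw [ha2, hb2, ← mul_add]
        exact h
      · left
        rw [ha2]
        exact oddF0 hd3 (by omega) hr hdo hb2 h hg'
      · left
        rw [hb2]
        exact rot_symm (oddF0 hd3 (by omega) hp hdo ha2 h
          (fun g h1 h2 h3 h4 => hg' g h1 h2 h4 h3))
      · obtain ⟨k, hk⟩ := h
        have hk1 : 0 < k := by
          by_contra hc
          have : d * k ≤ 0 := by nlinarith
          omega
        rcases le_total p r with hpr | hpr
        · refine caseq_odd hd3 hdo ha2 hpr hk1 (by rw [ha2, hb2]; linarith)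
            (fun g h1 h2 h3 => hg' g h1 h2 h3 ?_)
          have h5 : b = d * k + -a := by linarith
          rw [h5]
          exact dvd_add (h2.mul_right k) (dvd_neg.2 h3)
        · rcases caseq_odd hd3 hdo hb2 hpr hk1 (by rw [ha2, hb2]; linarith)
            (fun g h1 h2 h3 => hg' g h1 h2 (by
              have h5 : a = d * k + -b := by linarith
              rw [h5]
              exact dvd_add (h2.mul_right k) (dvd_neg.2 h3)) h3) with h | h
          · exact Or.inl (rot_symm h)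
          · exact Or.inr h.symm
      · subst h7
        rw [ha2, hb2]
        rcases h with h | h
        · refine seven (by omega) (by omega) (fun h7 => ?_) h
          have := hg' 7 (by norm_num) (dvd_refl 7) h7 (by omega)
          omega
        · rcases seven (a := b) (b := a) (by omega) (by omega) (fun h7 => by
            have := hg' 7 (by norm_num) (dvd_refl 7) (by omega) h7
            omega) (by omega) with h | h
          · exact Or.inl (rot_symm h)
          · exact Or.inr h.symm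

end NH21.Unav
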