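import Pool.Agent.NH21.Unav.Defs

namespace NH21.Unav

theorem Avoid.mono {Q Q' P P' : List ℤ} (h : Avoid Q P) (hQ : ∀ t ∈ Q, t ∈ Q')
    (hP : ∀ t ∈ P, t ∈ P') : Avoid Q' P' := by
  obtain ⟨w, h1, h2⟩ := h
  refine ⟨w, fun x => ?_, fun x => ?_⟩
  · obtain ⟨t, ht, h⟩ := h1 x
    exact ⟨t, hQ t ht, h⟩
  · obtain ⟨t, ht, h⟩ := h2 x
    exact ⟨t, hP t ht, h⟩

theorem Avoid.swap {Q P : List ℤ} (h : Avoid Q P) : Avoid P Q := by
  obtain ⟨w, h1, h2⟩ := h
  refine ⟨fun x => !(w x), fun x => ?_, fun x => ?_⟩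
  · obtain ⟨t, ht, h⟩ := h2 x
    exact ⟨t, ht, by simp [h]⟩
  · obtain ⟨t, ht, h⟩ := h1 x
    exact ⟨t, ht, by simp [h]⟩

/-- Translating the patterns. -/
theorem Avoid.shift {Q P : List ℤ} (h : Avoid Q P) (c c' : ℤ) :
    Avoid (Q.map (· + c)) (P.map (· + c')) := by
  obtain ⟨w, h1, h2⟩ := h
  refine ⟨w, fun x => ?_, fun x => ?_⟩
  · obtain ⟨t, ht, h⟩ := h1 (x + c)
    exact ⟨t + c, List.mem_map.2 ⟨t, ht, rfl⟩, by rw [← h]; congr 1; ring⟩
  · obtain ⟨t, ht, h⟩ := h2 (x + c')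
    exact ⟨t + c', List.mem_map.2 ⟨t, ht, rfl⟩, by rw [← h]; congr 1; ring⟩

/-- Reflecting the patterns. -/
theorem Avoid.neg {Q P : List ℤ} (h : Avoid Q P) :
    Avoid (Q.map (fun t => -t)) (P.map (fun t => -t)) := by
  obtain ⟨w, h1, h2⟩ := h
  refine ⟨fun x => w (-x), fun x => ?_, fun x => ?_⟩
  · obtain ⟨t, ht, h⟩ := h1 (-x)
    exact ⟨-t, List.mem_map.2 ⟨t, ht, rfl⟩, by
      show w (-(x + -t)) = false
      rw [← h]; congr 1; ring⟩
  · obtain ⟨t, ht, h⟩ := h2 (-x)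
    exact ⟨-t, List.mem_map.2 ⟨t, ht, rfl⟩, by
      show w (-(x + -t)) = true
      rw [← h]; congr 1; ring⟩

/-- Scaling up. -/
theorem Avoid.scale {Q P : List ℤ} (h : Avoid Q P) {e : ℤ} (he : 0 < e) :
    Avoid (Q.map (fun t => e * t)) (P.map (fun t => e * t)) := by
  obtain ⟨w, h1, h2⟩ := h
  have key : ∀ x t : ℤ, (x + e * t) / e = x / e + t := fun x t =>
    Int.add_mul_ediv_left x t he.ne'
  refine ⟨fun x => w (x / e), fun x => ?_, fun x => ?_⟩
  · obtain ⟨t, ht, h⟩ := h1 (x / e)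
    exact ⟨e * t, List.mem_map.2 ⟨t, ht, rfl⟩, by simp only [key]; exact h⟩
  · obtain ⟨t, ht, h⟩ := h2 (x / e)
    exact ⟨e * t, List.mem_map.2 ⟨t, ht, rfl⟩, by simp only [key]; exact h⟩

theorem emod_congr {N u v : ℤ} (h : N ∣ u - v) : u % N = v % N :=
  (Int.modEq_iff_dvd.2 h).symm

/-- Rotation colourings. -/
theorem rotAvoid {d a b c : ℤ} (h : Rot d a b c) : Avoid [0, d] [0, a, a + b] := by
  obtain ⟨N, K, x, y, z, s, hN, hx, hy, hz, hs, x0, y0, z0, hsum, xs, xN, ys, yN, zs, zN⟩ := h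
  obtain ⟨l, hl⟩ : ∃ l : ℤ, l = max x (max y z) := ⟨_, rfl⟩
  have lx : x ≤ l := by rw [hl]; exact le_max_left _ _
  have ly : y ≤ l := by rw [hl]; exact (le_max_left _ _).trans (le_max_right _ _)
  have lz : z ≤ l := by rw [hl]; exact (le_max_right _ _).trans (le_max_right _ _)
  have ls : l ≤ s := by rw [hl]; exact max_le xs (max_le ys zs)
  have lN : l + s ≤ N := by
    rcases max_choice x (max y z) with h | h
    · rw [hl, h]; exact xN
    · rcases max_choice y z with h' | h'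
      · rw [hl, h, h']; exact yN
      · rw [hl, h, h']; exact zN
  have key : ∀ q t τ : ℤ, N ∣ t * K - τ → (K * (q + t)) % N = ((K * q) % N + τ) % N := by
    intro q t τ h
    apply emod_congr
    obtain ⟨k, hk⟩ := h
    have h3 := Int.emod_add_mul_ediv (K * q) N
    refine ⟨k + K * q / N, ?_⟩
    rw [mul_add N, ← hk]
    linarith [mul_add K q t, mul_comm K t]
  refine ⟨fun q => decide ((K * q) % N < l), fun q => ?_, fun q => ?_⟩
  · have r0 := Int.emod_nonneg (K * q) hN.ne'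
    have r1 := Int.emod_lt_of_pos (K * q) hN
    by_cases hc : (K * q) % N < l
    · refine ⟨d, by simp, ?_⟩
      simp only [decide_eq_false_iff_not, not_lt]
      rw [key q d s hs, Int.emod_eq_of_lt (by omega) (by omega)]
      omega
    · refine ⟨0, by simp, ?_⟩
      simp only [decide_eq_false_iff_not, not_lt, add_zero]
      omega
  · have r0 := Int.emod_nonneg (K * q) hN.ne'
    have r1 := Int.emod_lt_of_pos (K * q) hN
    by_cases hc : (K * q) % N < l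
    · refine ⟨0, by simp, ?_⟩
      simp only [decide_eq_true_eq, add_zero]
      exact hc
    · by_cases hc2 : N ≤ (K * q) % N + x
      · refine ⟨a, by simp, ?_⟩
        simp only [decide_eq_true_eq]
        rw [key q a x hx, ← Int.sub_emod_right, Int.emod_eq_of_lt (by omega) (by omega)]
        omega
      · refine ⟨a + b, by simp, ?_⟩
        simp only [decide_eq_true_eq]
        have hxy : N ∣ (a + b) * K - (x + y) := by
          have := dvd_add hx hy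
          refine this.trans (dvd_of_eq (by ring))
        rw [key q (a + b) (x + y) hxy, ← Int.sub_emod_right,
          Int.emod_eq_of_lt (by omega) (by omega)]
        omega

theorem Rot.swap12 {d a b c : ℤ} (h : Rot d a b c) : Rot d b a c := by
  obtain ⟨N, K, x, y, z, s, hN, hx, hy, hz, hs, x0, y0, z0, hsum, xs, xN, ys, yN, zs, zN⟩ := h
  exact ⟨N, K, y, x, z, s, hN, hy, hx, hz, hs, y0, x0, z0, by omega, ys, yN, xs, xN, zs, zN⟩

theorem Rot.swap23 {d a b c : ℤ} (h : Rot d a b c) : Rot d a c b := by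
  obtain ⟨N, K, x, y, z, s, hN, hx, hy, hz, hs, x0, y0, z0, hsum, xs, xN, ys, yN, zs, zN⟩ := h
  exact ⟨N, K, x, z, y, s, hN, hx, hz, hy, hs, x0, z0, y0, by omega, xs, xN, zs, zN, ys, yN⟩

theorem Rot.neg {d a b c : ℤ} (h : Rot d a b c) : Rot d (-a) (-b) (-c) := by
  obtain ⟨N, K, x, y, z, s, hN, hx, hy, hz, hs, x0, y0, z0, hsum, xs, xN, ys, yN, zs, zN⟩ := h
  refine ⟨N, -K, x, y, z, N - s, hN, ?_, ?_, ?_, ?_, x0, y0, z0, hsum, by omega, by omega,
    by omega, by omega, by omega, by omega⟩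
  · exact hx.trans (dvd_of_eq (by ring))
  · exact hy.trans (dvd_of_eq (by ring))
  · exact hz.trans (dvd_of_eq (by ring))
  · obtain ⟨k, hk⟩ := hs
    exact ⟨-k - 1, by linear_combination -hk⟩

theorem Rot.scale {d a b c : ℤ} (h : Rot d a b c) {g : ℤ} (hg : 0 < g) :
    Rot (g * d) (g * a) (g * b) (g * c) := by
  obtain ⟨N, K, x, y, z, s, hN, hx, hy, hz, hs, x0, y0, z0, hsum, xs, xN, ys, yN, zs, zN⟩ := h
  have aux : ∀ t τ : ℤ, N ∣ t * K - τ → g * N ∣ g * t * K - g * τ := fun t τ h => by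
    have := mul_dvd_mul_left g h
    exact this.trans (dvd_of_eq (by ring))
  refine ⟨g * N, K, g * x, g * y, g * z, g * s, by positivity, aux _ _ hx, aux _ _ hy, aux _ _ hz,
    aux _ _ hs, by positivity, by positivity, by positivity, by rw [← hsum]; ring, ?_, ?_, ?_, ?_,
    ?_, ?_⟩ <;> nlinarith

/-- `F0`: one gap is a multiple of `2d`. -/
theorem rotF0 {d k a u : ℤ} (hd : 0 < d) (hk : 1 ≤ k) (hT : 2 * k + 1 ≤ a + (2 * k - 1) * d)
    (hu : Odd u) (hau : 2 * d ∣ a * u - (d - 1)) :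
    Rot d (2 * d * k) a (-(2 * d * k + a)) := by
  obtain ⟨T, hTd⟩ : ∃ T : ℤ, T = a + (2 * k - 1) * d := ⟨_, rfl⟩
  rw [← hTd] at hT
  obtain ⟨w, hw⟩ := hu
  obtain ⟨v, hv⟩ := hau
  have hT0 : 0 < T := by omega
  refine ⟨2 * d * T, u * T + 1, 2 * k * d, (T - 2 * k + 1) * d, (T - 1) * d, (T + 1) * d,
    by positivity, ⟨k * u, by ring⟩, ⟨v, ?_⟩, ⟨-(k * u) - v - 1, ?_⟩, ⟨w, by rw [hw]; ring⟩,
    by positivity, ?_, ?_, by ring, ?_, ?_, ?_, ?_, ?_, ?_⟩
  · have ha : a = T - (2 * k - 1) * d := by rw [hTd]; ring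
    linear_combination T * hv + ha
  · have ha : a = T - (2 * k - 1) * d := by rw [hTd]; ring
    linear_combination -T * hv - ha
  · exact mul_nonneg (by omega) hd.le
  · exact mul_nonneg (by omega) hd.le
  all_goals nlinarith [mul_nonneg (show (0 : ℤ) ≤ T - (2 * k + 1) by omega) hd.le, mul_nonneg (show (0 : ℤ) ≤ k - 1 by omega) hd.le]

/-- `F1`: two gaps differing by an odd multiple of `d`. -/
theorem rotF1 {d m a u : ℤ} (hd : 0 < d) (hm : 3 ≤ m) (hmo : Odd m) (hT : m ≤ d * (m - 1) + a)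
    (hu : Odd u) (hau : 2 * d ∣ a * u - 1) :
    Rot d a (a + m * d) (-(2 * a + m * d)) := by
  obtain ⟨T, hTd⟩ : ∃ T : ℤ, T = d * (m - 1) + a := ⟨_, rfl⟩
  rw [← hTd] at hT
  obtain ⟨w, hw⟩ := hu
  obtain ⟨v, hv⟩ := hau
  obtain ⟨n, hn⟩ := hmo
  have hT0 : 0 < T := by omega
  have ha : a = T - (m - 1) * d := by rw [hTd]; ring
  refine ⟨2 * d * T, u * T - 1, (m - 1) * d, (T - 1) * d, (T - m + 2) * d, (T - 1) * d,
    by positivity, ⟨v, ?_⟩, ⟨v + n * u + w, ?_⟩, ⟨-2 * v - n * u - w - 1, ?_⟩, ⟨w, ?_⟩,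
    ?_, ?_, ?_, by ring, ?_, ?_, ?_, ?_, ?_, ?_⟩
  · linear_combination T * hv - ha
  · have e1 : m * d * (u * T) = d * T * (2 * n * u + u) := by rw [hn]; ring
    have e2 : d * T * u = 2 * d * T * w + d * T := by rw [hw]; ring
    linear_combination T * hv - ha + e1 + e2
  · have e1 : m * d * (u * T) = d * T * (2 * n * u + u) := by rw [hn]; ring
    have e2 : d * T * u = 2 * d * T * w + d * T := by rw [hw]; ring
    linear_combination -2 * T * hv + 2 * ha - e1 - e2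
  · rw [hw]; ring
  all_goals nlinarith [mul_nonneg (show (0 : ℤ) ≤ T - m by omega) hd.le, mul_nonneg (show (0 : ℤ) ≤ m - 3 by omega) hd.le]

/-- `F2`: the sporadic residue classes for `d = 7`. -/
theorem rotF2 {p r u : ℤ} (hp : 0 < p) (hr : 0 < r) (hC : 14 ≤ p + r) (hu : Odd u)
    (h1 : 14 ∣ p * u - 2) (h2 : 14 ∣ r * u - 4) : Rot 7 p r (-(p + r)) := by
  obtain ⟨w, hw⟩ := hu
  obtain ⟨v1, hv1⟩ := h1
  obtain ⟨v2, hv2⟩ := h2
  obtain ⟨T, hT⟩ : ∃ T : ℤ, T = p + r - 7 := ⟨_, rfl⟩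
  refine ⟨14 * T, u * T + 1, 2 * T + p, 4 * T + r, 7 * (T - 1), 7 * (T + 1), by omega,
    ⟨v1, by linear_combination T * hv1⟩, ⟨v2, by linear_combination T * hv2⟩,
    ⟨-v1 - v2 - 1, by linear_combination -T * hv1 - T * hv2 + hT⟩, ⟨w, by rw [hw]; ring⟩,
    by omega, by omega, by omega, by omega, by omega, by omega, by omega, by omega, by omega,
    by omega⟩

theorem rot_odd {d p r : ℤ} (hd : Odd d) (h : Odd p ∨ Odd r) : Rot d p r (-(p + r)) := by
  rcases Int.even_or_odd p with hp | hp <;> rcases Int.even_or_odd r with hr | hr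
  · rcases h with h | h
    · exact absurd hp (Int.not_even_iff_odd.2 h)
    · exact absurd hr (Int.not_even_iff_odd.2 h)
  · obtain ⟨p', hp⟩ := hp; obtain ⟨r', hr⟩ := hr; obtain ⟨d', hd⟩ := hd
    exact ⟨2, 1, 0, 1, 1, 1, by norm_num, ⟨p', by omega⟩, ⟨r', by omega⟩, ⟨-p' - r' - 1, by omega⟩,
      ⟨d', by omega⟩, by norm_num⟩
  · obtain ⟨p', hp⟩ := hp; obtain ⟨r', hr⟩ := hr; obtain ⟨d', hd⟩ := hd
    exact ⟨2, 1, 1, 0, 1, 1, by norm_num, ⟨p', by omega⟩, ⟨r', by omega⟩, ⟨-p' - r' - 1, by omega⟩,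
      ⟨d', by omega⟩, by norm_num⟩
  · obtain ⟨p', hp⟩ := hp; obtain ⟨r', hr⟩ := hr; obtain ⟨d', hd⟩ := hd
    exact ⟨2, 1, 1, 1, 0, 1, by norm_num, ⟨p', by omega⟩, ⟨r', by omega⟩, ⟨-p' - r' - 1, by omega⟩,
      ⟨d', by omega⟩, by norm_num⟩

theorem rot_one {p r : ℤ} (hp : 0 < p) (hr : 0 < r) (hpe : Even p) (hre : Even r) :
    Rot 1 p r (-(p + r)) := by
  obtain ⟨p', hp'⟩ := hpe
  obtain ⟨r', hr'⟩ := hre
  refine ⟨2 * (p + r - 1), p + r, p, r, p + r - 2, p + r, by omega, ⟨p', ?_⟩, ⟨r', ?_⟩,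
    ⟨-p' - r' - 1, ?_⟩, ⟨0, by ring⟩, by omega, by omega, by omega, by omega, by omega, by omega,
    by omega, by omega, by omega, by omega⟩
  · rw [hp']; ring
  · rw [hr']; ring
  · rw [hp', hr']; ring

end NH21.Unav
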